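import Pool.Agent.Work.MP_e64a38_co.FF.Defs

/-!
# Windows of a convex polygon (fixed file)

`Q`: separated flattening, `Deep`: more than `D` flattenings with the same `x1`, `x4` and separated `x3`; `QB`, `DeepB`:
the same between the walls `α`, `β`. `Ch`: projective coordinates `X = U / W`, `Y = V / W` of the plane.
`ZnP`, `EgP`: cells and edges of lines in the region above `F` between the walls. `LB`: `φ` is the lower boundary of
the polygon in the coordinates, over `[α, β]`. `QSf`: convex functions with quasisymmetric slope. `Touch`: all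
supporting lines touch the graph of `f`.
-/

set_option autoImplicit false

namespace Pool.Agent.Work.MP_e64a38_co.GG

/-- separated flattening (to the right) -/
def Q (K : ℝ) (ψ : ℝ → ℝ) (x0 x1 x2 x3 x4 : ℝ) : Prop :=
  x0 < x1 ∧ x1 < x2 ∧ x2 < x3 ∧ x3 < x4 ∧
    K * (x1 - x0) ≤ x2 - x1 ∧ K * (x2 - x1) ≤ x3 - x2 ∧ K * (x3 - x2) ≤ x4 - x3 ∧
    0 < ψ x4 - ψ x3 ∧ K * (ψ x4 - ψ x3) ≤ ψ x3 - ψ x2 ∧ K * (ψ x3 - ψ x2) ≤ ψ x2 - ψ x1 ∧
    K * (ψ x2 - ψ x1) ≤ ψ x1 - ψ x0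

/-- separated flattening between the walls `α` and `β`; `x0` may be beyond the wall `α` -/
def QB (K α β : ℝ) (ψ : ℝ → ℝ) (x0 x1 x2 x3 x4 : ℝ) : Prop :=
  x0 < x1 ∧ x1 < x2 ∧ x2 < x3 ∧ x3 < x4 ∧ α ≤ x1 ∧ x4 ≤ β ∧
    K * (x1 - x0) ≤ x2 - x1 ∧ K * (x2 - x1) ≤ x3 - x2 ∧ K * (x3 - x2) ≤ x4 - x3 ∧
    0 < ψ x4 - ψ x3 ∧ K * (ψ x4 - ψ x3) ≤ ψ x3 - ψ x2 ∧ K * (ψ x3 - ψ x2) ≤ ψ x2 - ψ x1 ∧
    (α ≤ x0 → K * (ψ x2 - ψ x1) ≤ ψ x1 - ψ x0)

/-- more than `D` flattenings with common `x1`, `x4` and separated `x3` -/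
def Deep (K : ℝ) (D : ℕ) (ψ : ℝ → ℝ) : Prop :=
  ∃ (x1 x4 : ℝ) (x0 x2 x3 : ℕ → ℝ), (∀ j, j ≤ D → Q K ψ (x0 j) x1 (x2 j) (x3 j) x4) ∧
    ∀ j, j < D → x2 j ≤ x2 (j + 1) ∧ K * (x3 j - x1) ≤ x3 (j + 1) - x1

/-- the same between walls -/
def DeepB (K : ℝ) (D : ℕ) (α β : ℝ) (ψ : ℝ → ℝ) : Prop :=
  ∃ (x1 x4 : ℝ) (x0 x2 x3 : ℕ → ℝ), (∀ j, j ≤ D → QB K α β ψ (x0 j) x1 (x2 j) (x3 j) x4) ∧
    ∀ j, j < D → x2 j ≤ x2 (j + 1) ∧ K * (x3 j - x1) ≤ x3 (j + 1) - x1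

/-! ## Lines in a region -/

variable {ι : Type}

/-- `σ` is the set of the lines above a point of the boundary of the region above `F` between the walls -/
def ZnP (p q : ι → ℝ) (F : ℝ → ℝ) (α β : ℝ) (σ : Finset ι) : Prop :=
  ∃ X Y, α ≤ X ∧ X ≤ β ∧ F X ≤ Y ∧ (Y = F X ∨ X = α ∨ X = β) ∧
    ∀ i, Y ≠ p i * X + q i ∧ (i ∈ σ ↔ Y < p i * X + q i)

/-- the cell with pattern `σ` has an edge on the line `i` -/
def EgP (p q : ι → ℝ) (F : ℝ → ℝ) (α β : ℝ) (σ : Finset ι) (i : ι) : Prop :=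
  ∃ x, α < x ∧ x < β ∧ F x < p i * x + q i ∧
    ∀ j, j ≠ i → (j ∈ σ → p i * x + q i < p j * x + q j) ∧
      (j ∉ σ → p j * x + q j < p i * x + q i)

/-! ## Projective coordinates -/

/-- an affine form -/
structure Fm where
  a : ℝ
  b : ℝ
  c : ℝ

/-- its value -/
def Fm.v (g : Fm) (z : ℝ × ℝ) : ℝ := g.a * z.1 + g.b * z.2 + g.c

/-- the determinant of three forms -/
def det3 (f g h : Fm) : ℝ :=
  f.a * (g.b * h.c - g.c * h.b) - f.b * (g.a * h.c - g.c * h.a) + f.c * (g.a * h.b - g.b * h.a)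

/-- projective coordinates -/
structure Ch where
  U : Fm
  V : Fm
  W : Fm
  det : det3 U V W ≠ 0

noncomputable def Ch.X (T : Ch) (z : ℝ × ℝ) : ℝ := T.U.v z / T.W.v z

noncomputable def Ch.Y (T : Ch) (z : ℝ × ℝ) : ℝ := T.V.v z / T.W.v z

/-- the mirror image -/
def Ch.mir (T : Ch) : Ch where
  U := ⟨-T.U.a, -T.U.b, -T.U.c⟩
  V := T.V
  W := T.W
  det := by
    have h : det3 ⟨-T.U.a, -T.U.b, -T.U.c⟩ T.V T.W = - det3 T.U T.V T.W := by
      unfold det3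
      ring
    rw [h]
    exact neg_ne_zero.mpr T.det

/-- the form of a line -/
def fo (l : Ln) : Fm := ⟨l.a, l.b, -l.c⟩

/-- `l = cA U + cB V + cC W` -/
noncomputable def cA (T : Ch) (l : Ln) : ℝ := det3 (fo l) T.V T.W / det3 T.U T.V T.W

noncomputable def cB (T : Ch) (l : Ln) : ℝ := det3 T.U (fo l) T.W / det3 T.U T.V T.W

noncomputable def cC (T : Ch) (l : Ln) : ℝ := det3 T.U T.V (fo l) / det3 T.U T.V T.W

/-- slope and constant term of a line in the coordinates -/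
noncomputable def ps (T : Ch) (l : Ln) : ℝ := - cA T l / cB T l

noncomputable def qs (T : Ch) (l : Ln) : ℝ := - cC T l / cB T l

variable {n k : ℕ}

open Classical in
/-- the pattern in the coordinates `T` of the signs `s` -/
noncomputable def pt (T : Ch) (l : Fin n → Ln) (s : Fin n → Bool) : Finset (Fin n) :=
  Finset.univ.filter (fun i => s i = decide (cB T (l i) < 0))

/-- all signs at `z` are those of `s` -/
def Sg (l : Fin n → Ln) (s : Fin n → Bool) (z : ℝ × ℝ) : Prop := ∀ j, 0 < sb (s j) * (l j).ev z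

/-- `z` is on the line `i`, all other signs at `z` are those of `s` -/
def Se (l : Fin n → Ln) (s : Fin n → Bool) (i : Fin n) (z : ℝ × ℝ) : Prop :=
  (l i).ev z = 0 ∧ ∀ j, j ≠ i → 0 < sb (s j) * (l j).ev z

/-- the cell `s` touches the curve `Y = φ X` over `[α, β]` and has an edge on the line `i` with a point over
`(α, β)` above the curve -/
def MainP (T : Ch) (l : Fin n → Ln) (α β : ℝ) (φ : ℝ → ℝ) (s : Fin n → Bool) (i : Fin n) : Prop :=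
  (∃ z, 0 < T.W.v z ∧ α ≤ T.X z ∧ T.X z ≤ β ∧ T.Y z = φ (T.X z) ∧ Sg l s z) ∧
    ∃ z, 0 < T.W.v z ∧ α < T.X z ∧ T.X z < β ∧ φ (T.X z) < T.Y z ∧ Se l s i z

/-- the cell `s` meets the wall `X = β` and has an edge on the line `i` with a point beyond it -/
def RightP (T : Ch) (l : Fin n → Ln) (β : ℝ) (s : Fin n → Bool) (i : Fin n) : Prop :=
  (∃ z, 0 < T.W.v z ∧ T.X z = β ∧ Sg l s z) ∧ ∃ z, 0 < T.W.v z ∧ β < T.X z ∧ Se l s i z

/-- `φ` is the lower boundary of the polygon over `[α, β]`, `ψ` are slopes of supporting lines -/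
def LB (h : Fin k → Ln) (T : Ch) (α β : ℝ) (φ ψ : ℝ → ℝ) : Prop :=
  α < β ∧ (∀ z ∈ inn h, 0 < T.W.v z) ∧
    (∀ x, α ≤ x → x ≤ β → ∃ z ∈ poly h, 0 < T.W.v z ∧ T.X z = x ∧ T.Y z = φ x) ∧
    ∀ x, α ≤ x → x ≤ β → ∀ z ∈ poly h, 0 < T.W.v z → φ x + ψ x * (T.X z - x) ≤ T.Y z

/-! ## Curves with quasisymmetric slope -/

/-- `s` is the slope of supporting lines of the convex function `f` on `[α, β]`, and it is `K`-quasisymmetric -/
def QSf (K α β : ℝ) (f s : ℝ → ℝ) : Prop :=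
  (∀ x z, α ≤ x → x ≤ β → α ≤ z → z ≤ β → f x + s x * (z - x) ≤ f z) ∧
    ∀ x t, 0 < t → α ≤ x - t → x + t ≤ β →
      s (x + t) - s x ≤ K * (s x - s (x - t)) ∧ s x - s (x - t) ≤ K * (s (x + t) - s x)

/-- every supporting line `φ x + ψ x (z - x)` touches the graphs of `φ` and `f` over `u ≤ v`, it is a tangent if
`u = v` -/
def Touch (α β : ℝ) (φ ψ f s : ℝ → ℝ) : Prop :=
  ∀ x, α ≤ x → x ≤ β → ∃ u v, α ≤ u ∧ u ≤ v ∧ v ≤ β ∧
    φ x + ψ x * (u - x) = f u ∧ φ u = f u ∧ φ x + ψ x * (v - x) = f v ∧ φ v = f v ∧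
    (u = v → ψ x = s u)

/-- `m` is the slope of the chord or of the tangent over `[u, v]` -/
def Cs (f s : ℝ → ℝ) (u v m : ℝ) : Prop :=
  (u < v ∧ m = (f v - f u) / (v - u)) ∨ (u = v ∧ m = s u)

end Pool.Agent.Work.MP_e64a38_co.GG
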