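import Pool.Agent.Work.MP_e64a38_co.GG.Defs
import Pool.Agent.Work.MP_e64a38_co.FF.VOf

/-!
# Flat pairs with the same younger chord (size M)

Proof. It is enough that for every `c` the fibre `R = {t ∈ P | t.1 = c}` has at most `D` elements
(`Finset.card_le_mul_card_image_of_maps_to` or `Finset.card_eq_sum_card_fiberwise`). Let `V` be the order family of
`FF.vf_ex` with `X = id` (so `V.a = S.a`, `V.b = S.b`, `V.f = f`, `V.y = y`). For `t ≠ t'` in `R` with `y t ≤ y t'`:
`V.fa` gives `S.b t.2 < y t'` and `f t ≤ f t'`. So `y` is injective on `R` (if `y t = y t'` then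
`S.b t.2 < y t' = y t < S.b t.2`, `V.ord`). Suppose `D + 1 ≤ R.card`. Enumerate the image `R.image y` (`D + 1` or more
real numbers) increasingly (`Finset.orderEmbOfFin`), take for the `j`-th smallest number, `j ≤ D`, the `t_j ∈ R` with
`y t_j` equal to it (for `j > D` anything), and `x0 j = S.a (t_j).2`, `x1 = S.a c`, `x2 j = f t_j`, `x3 j = S.b (t_j).2`,
`x4 = S.b c`. These are `Q K ψ` by `hF`. For `j < D`: `t_j ≠ t_(j+1)`, `y t_j < y t_(j+1)`, so
`x2 j ≤ x2 (j+1)` and `K (x3 j - x1) ≤ K (y t_(j+1) - x1) ≤ x3 (j+1) - x2 (j+1) < x3 (j+1) - x1` (`hF`; `V.ord`: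
`S.a c < f t`). So `Deep K D ψ`.
-/

set_option autoImplicit false

namespace Pool.Agent.Work.MP_e64a38_co.GG

variable {ι : Type} [Fintype ι]

theorem deep_card (S : CZ.Sy ι) (ψ : ℝ → ℝ) (P : Finset (ι × ι)) (f y : ι × ι → ℝ)
    (hP : CZ.Fam S P f y) (K : ℝ) (hK : 0 ≤ K) (D : ℕ)
    (hF : ∀ t ∈ P, Q K ψ (S.a t.2) (S.a t.1) (f t) (S.b t.2) (S.b t.1) ∧
      K * (y t - S.a t.1) ≤ S.b t.2 - f t)
    (hD : ¬ Deep K D ψ) : P.card ≤ D * Fintype.card ι := by
  classical
  obtain ⟨V, hVa, hVb, hVP, hVf, hVy⟩ := FF.vf_ex S id strictMono_id P f y hP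
  have hfa : ∀ t ∈ P, ∀ t' ∈ P, t.1 = t'.1 → t ≠ t' → y t ≤ y t' →
      S.b t.2 < y t' ∧ f t ≤ f t' := by
    intro t ht t' ht' h1 h2 h3
    have h := V.fa t (hVP ▸ ht) t' (hVP ▸ ht') h1 h2 (by rw [hVy, hVy]; exact h3)
    rw [hVb, hVy, hVf, hVf] at h
    exact h
  have hord : ∀ t ∈ P, y t < S.b t.2 := by
    intro t ht
    have h := (V.ord t (hVP ▸ ht)).2.2.2.2.2
    rw [hVb, hVy] at h
    exact h
  have hmain : ∀ c ∈ (Finset.univ : Finset ι), (P.filter (fun t => t.1 = c)).card ≤ D := by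
    intro c _
    by_contra hcard
    rw [not_le] at hcard
    apply hD
    set R := P.filter (fun t => t.1 = c) with hR
    have hRP : ∀ t ∈ R, t ∈ P ∧ t.1 = c := fun t ht => Finset.mem_filter.1 ht
    have hinj : Set.InjOn y R := by
      intro t ht t' ht' h
      by_contra hne
      have h1 := hfa t (hRP t ht).1 t' (hRP t' ht').1 ((hRP t ht).2.trans (hRP t' ht').2.symm)
        hne h.le
      have h2 := hord t (hRP t ht).1
      rw [h] at h2
      linarith [h1.1]
    have hk : (R.image y).card = R.card := Finset.card_image_of_injOn hinj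
    let E := (R.image y).orderEmbOfFin hk
    have hex : ∀ j : Fin R.card, ∃ t ∈ R, y t = E j := fun j => by
      have h := Finset.orderEmbOfFin_mem (R.image y) hk j
      exact Finset.mem_image.1 h
    choose g hgR hgy using hex
    have hmin : ∀ j : ℕ, min j D < R.card := fun j => lt_of_le_of_lt (min_le_right j D) hcard
    let tt : ℕ → ι × ι := fun j => g ⟨min j D, hmin j⟩
    have htR : ∀ j, tt j ∈ R := fun j => hgR _
    have hty : ∀ j, y (tt j) = E ⟨min j D, hmin j⟩ := fun j => hgy _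
    refine ⟨S.a c, S.b c, fun j => S.a (tt j).2, fun j => f (tt j), fun j => S.b (tt j).2,
      fun j _ => ?_, fun j hj => ?_⟩
    · have h := (hF (tt j) (hRP _ (htR j)).1).1
      rw [(hRP _ (htR j)).2] at h
      exact h
    · have hlt : y (tt j) < y (tt (j + 1)) := by
        rw [hty, hty]
        apply E.strictMono
        rw [Fin.mk_lt_mk]
        omega
      have hne : tt j ≠ tt (j + 1) := fun h => by
        rw [h] at hlt
        exact lt_irrefl _ hlt
      have h1 := hfa _ (hRP _ (htR j)).1 _ (hRP _ (htR (j + 1))).1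
        ((hRP _ (htR j)).2.trans (hRP _ (htR (j + 1))).2.symm) hne hlt.le
      have h2 := hF (tt (j + 1)) (hRP _ (htR (j + 1))).1
      rw [(hRP _ (htR (j + 1))).2] at h2
      refine ⟨h1.2, ?_⟩
      show K * (S.b (tt j).2 - S.a c) ≤ S.b (tt (j + 1)).2 - S.a c
      have h3 : K * (S.b (tt j).2 - S.a c) ≤ K * (y (tt (j + 1)) - S.a c) :=
        mul_le_mul_of_nonneg_left (by linarith [h1.1]) hK
      have h4 : S.a c < f (tt (j + 1)) := h2.1.2.1
      linarith [h2.2]
  have h := Finset.card_le_mul_card_image_of_maps_to (s := P) (t := (Finset.univ : Finset ι))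
    (f := Prod.fst) (fun a _ => Finset.mem_univ _) D hmain
  rwa [Finset.card_univ] at h

end Pool.Agent.Work.MP_e64a38_co.GG
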