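import Pool.Agent.Work.MP_e64a38_co.GG.GA1
import Pool.Agent.Work.MP_e64a38_co.FF.NMain

/-!
# Visible crossings of a curve of bounded flattening depth (size M)

Proof. Copy the beginning of the proof of `FF.prs_card` (choice of `f`, `y` for the pairs of `CZ.Prs S`). Let
`Q1` be the pairs `t` of `CZ.Prs S` with `FF.IncT S id f y N t`, `FF.DecT S ψ f y N t` and
`ψ (S.b t.2) < ψ (S.b t.1)`. They satisfy the hypothesis `hF` of `deep_card` (unfold `Inc`, `Dec`; `CZ.vis_ord`), so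
`Q1.card ≤ D card ι`. Let `Q2` be the pairs with `FF.DecT S id f y N t`, `FF.IncT S ψ f y N t` and
`ψ (S.a t.2) < ψ (S.a t.1)`. Their mirror image `Q2.image Prod.swap` for `S.mir`, `FF.mr ψ`, `- f t.swap`, `- y t.swap`
(`CZ.vis_mir`, as in the proof of `FF.prs_card` and `dec_card` in `FF.NMain`) satisfies the hypothesis of `deep_card`, so
`Q2.card ≤ D card ι`. The other pairs satisfy the hypotheses of `FF.fam_card`: `1950 N (n + 1)`.
-/

set_option autoImplicit false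

namespace Pool.Agent.Work.MP_e64a38_co.GG

variable {ι : Type} [Fintype ι]

private theorem ga2_split (P : Finset (ι × ι)) (p : ι × ι → Prop) [DecidablePred p] :
    P.card ≤ (P.filter p).card + (P.filter (fun t => ¬ p t)).card := by
  classical
  have h : P ⊆ P.filter p ∪ P.filter (fun t => ¬ p t) := by
    intro t ht
    rw [Finset.mem_union, Finset.mem_filter, Finset.mem_filter]
    by_cases hp : p t
    · exact Or.inl ⟨ht, hp⟩
    · exact Or.inr ⟨ht, hp⟩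
  exact (Finset.card_le_card h).trans (Finset.card_union_le _ _)

theorem prs_deep (S : CZ.Sy ι) (ψ : ℝ → ℝ) (hψ : FF.Sub S.φ ψ) (N : ℕ) (hN : 32 ≤ N) (D : ℕ)
    (hF : ¬ Deep N D ψ) (hF' : ¬ Deep N D (FF.mr ψ)) :
    (CZ.Prs S).card ≤ 1950 * N * (Fintype.card ι + 1) + 2 * D * Fintype.card ι := by
  classical
  have h : ∀ t : ι × ι, ∃ w : ℝ × ℝ, t ∈ CZ.Prs S → CZ.Vis S t.1 t.2 w.1 w.2 := by
    intro t
    by_cases ht : t ∈ CZ.Prs S
    · unfold CZ.Prs at ht
      obtain ⟨f, y, hv⟩ := (Finset.mem_filter.1 ht).2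
      exact ⟨(f, y), fun _ => hv⟩
    · exact ⟨(0, 0), fun h => absurd h ht⟩
  choose w hw using h
  set f : ι × ι → ℝ := fun t => (w t).1 with hf
  set y : ι × ι → ℝ := fun t => (w t).2 with hy
  have hfam : CZ.Fam S (CZ.Prs S) f y := fun t ht => hw t ht
  have c1 := ga2_split (CZ.Prs S) (fun t => FF.IncT S id f y N t ∧ FF.DecT S ψ f y N t ∧
    ψ (S.b t.2) < ψ (S.b t.1))
  set Q1 := (CZ.Prs S).filter (fun t => FF.IncT S id f y N t ∧ FF.DecT S ψ f y N t ∧
    ψ (S.b t.2) < ψ (S.b t.1)) with hQ1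
  set R1 := (CZ.Prs S).filter (fun t => ¬ (FF.IncT S id f y N t ∧ FF.DecT S ψ f y N t ∧
    ψ (S.b t.2) < ψ (S.b t.1))) with hR1
  have c2 := ga2_split R1 (fun t => FF.DecT S id f y N t ∧ FF.IncT S ψ f y N t ∧
    ψ (S.a t.2) < ψ (S.a t.1))
  set Q2 := R1.filter (fun t => FF.DecT S id f y N t ∧ FF.IncT S ψ f y N t ∧
    ψ (S.a t.2) < ψ (S.a t.1)) with hQ2
  set R2 := R1.filter (fun t => ¬ (FF.DecT S id f y N t ∧ FF.IncT S ψ f y N t ∧
    ψ (S.a t.2) < ψ (S.a t.1))) with hR2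
  have sQ1 : ∀ t ∈ Q1, t ∈ CZ.Prs S := fun t ht => (Finset.mem_filter.1 ht).1
  have sR1 : ∀ t ∈ R1, t ∈ CZ.Prs S := fun t ht => (Finset.mem_filter.1 ht).1
  have sQ2 : ∀ t ∈ Q2, t ∈ CZ.Prs S := fun t ht => sR1 t (Finset.mem_filter.1 ht).1
  have sR2 : ∀ t ∈ R2, t ∈ CZ.Prs S := fun t ht => sR1 t (Finset.mem_filter.1 ht).1
  have hN0 : (0 : ℝ) ≤ N := Nat.cast_nonneg N
  have b1 : Q1.card ≤ D * Fintype.card ι := by
    refine deep_card S ψ Q1 f y (fun t ht => hfam t (sQ1 t ht)) N hN0 D ?_ hF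
    intro t ht
    obtain ⟨hi, hd, hlt⟩ := (Finset.mem_filter.1 ht).2
    have o := CZ.vis_ord S (hfam t (sQ1 t ht))
    have hi' : FF.Inc N (S.a t.2) (S.a t.1) (f t) (S.b t.2) (S.b t.1) (y t) := hi
    exact ⟨⟨o.1, o.2.1, o.2.2.1, o.2.2.2.1, hi'.1, hi'.2.1, hi'.2.2.1, by linarith, hd.1, hd.2.1,
      hd.2.2.1⟩, hi'.2.2.2⟩
  have b2 : Q2.card ≤ D * Fintype.card ι := by
    have hmem : ∀ t ∈ Q2.image Prod.swap, t.swap ∈ Q2 := by
      intro t ht
      obtain ⟨u, hu, rfl⟩ := Finset.mem_image.1 ht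
      rw [Prod.swap_swap]
      exact hu
    have hc : Q2.card = (Q2.image Prod.swap).card :=
      (Finset.card_image_of_injective Q2 Prod.swap_injective).symm
    rw [hc]
    refine deep_card S.mir (FF.mr ψ) (Q2.image Prod.swap) (fun t => - f t.swap)
      (fun t => - y t.swap) (fun t ht => CZ.vis_mir S (hfam t.swap (sQ2 _ (hmem t ht)))) N hN0 D
      ?_ hF'
    intro t ht
    have hs := hmem t ht
    obtain ⟨hd, hi, hlt⟩ := (Finset.mem_filter.1 hs).2
    have o := CZ.vis_ord S (hfam t.swap (sQ2 _ hs))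
    obtain ⟨d1, d2, d3, d4⟩ : FF.Dec N (S.a t.1) (S.a t.2) (f t.swap) (S.b t.1) (S.b t.2)
      (y t.swap) := hd
    obtain ⟨i1, i2, i3, i4⟩ : FF.Inc N (ψ (S.a t.1)) (ψ (S.a t.2)) (ψ (f t.swap)) (ψ (S.b t.1))
      (ψ (S.b t.2)) (ψ (y t.swap)) := hi
    have o1 : S.a t.1 < S.a t.2 := o.1
    have o2 : S.a t.2 < f t.swap := o.2.1
    have o3 : f t.swap < S.b t.1 := o.2.2.1
    have o4 : S.b t.1 < S.b t.2 := o.2.2.2.1
    have hlt' : ψ (S.a t.1) < ψ (S.a t.2) := hlt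
    show Q N (FF.mr ψ) (- S.b t.2) (- S.b t.1) (- f t.swap) (- S.a t.2) (- S.a t.1) ∧
      (N : ℝ) * (- y t.swap - - S.b t.1) ≤ - S.a t.2 - - f t.swap
    refine ⟨⟨by linarith, by linarith, by linarith, by linarith, by linarith, by linarith,
      by linarith, ?_, ?_, ?_, ?_⟩, by linarith⟩
    · simp only [FF.mr, neg_neg]
      linarith
    · simp only [FF.mr, neg_neg]
      linarith
    · simp only [FF.mr, neg_neg]
      linarith
    · simp only [FF.mr, neg_neg]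
      linarith
  have b3 : R2.card ≤ 1950 * N * (Fintype.card ι + 1) := by
    refine FF.fam_card S ψ hψ R2 f y (fun t ht => hfam t (sR2 t ht)) N hN ?_ ?_
    · intro t ht hi hd
      by_contra hc
      rw [not_le] at hc
      exact (Finset.mem_filter.1 (Finset.mem_filter.1 ht).1).2 ⟨hi, hd, hc⟩
    · intro t ht hd hi
      by_contra hc
      rw [not_le] at hc
      exact (Finset.mem_filter.1 ht).2 ⟨hd, hi, hc⟩
  have b4 : 2 * D * Fintype.card ι = D * Fintype.card ι + D * Fintype.card ι := by ring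
  omega

end Pool.Agent.Work.MP_e64a38_co.GG
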