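import Pool.Agent.Work.MP_e64a38_co.GG.GA2
import Pool.Agent.Work.MP_e64a38_co.FF.ZUp
import Pool.Agent.Work.MP_e64a38_co.CZ.ZLow
import Pool.Agent.Work.MP_e64a38_co.CZ.ZCells

/-!
# The number of edges of all cells that touch the curve (size S)

Proof. Copy `FF.ned_card` (file `FF/ZTot.lean`) with `prs_deep` instead of `prs_card`:
`nEd S ≤ (C + 1950 N (n + 1) + 2 D n) + (C + n) + (C + n)` with `C ≤ 2 n + 1`.
-/

set_option autoImplicit false

namespace Pool.Agent.Work.MP_e64a38_co.GG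

variable {ι : Type} [Fintype ι]

open Classical in
private theorem gz_split (S : CZ.Sy ι) (A : Finset ι) (y : ℝ) (hy : CZ.Off S y)
    (hA : CZ.Sg S y = A) :
    (Finset.univ.filter (fun i => CZ.Ed S A i)).card ≤
      (Finset.univ.filter (fun i => i ∈ A ∧ CZ.Ed S A i)).card +
        ((Finset.univ.filter (fun t => S.b t < y ∧ CZ.Ed S A t)).card +
          (Finset.univ.filter (fun t => y < S.a t ∧ CZ.Ed S A t)).card) := by
  refine le_trans (Finset.card_le_card (t := Finset.univ.filter (fun i => i ∈ A ∧ CZ.Ed S A i) ∪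
    (Finset.univ.filter (fun t => S.b t < y ∧ CZ.Ed S A t) ∪
      Finset.univ.filter (fun t => y < S.a t ∧ CZ.Ed S A t))) ?_)
    ((Finset.card_union_le _ _).trans (Nat.add_le_add_left (Finset.card_union_le _ _) _))
  intro i hi
  have hE := (Finset.mem_filter.1 hi).2
  by_cases hiA : i ∈ A
  · exact Finset.mem_union_left _ (Finset.mem_filter.2 ⟨Finset.mem_univ _, hiA, hE⟩)
  · apply Finset.mem_union_right
    have h1 : ¬ CZ.Al S y i := by
      intro h
      apply hiA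
      rw [← hA]
      unfold CZ.Sg
      exact Finset.mem_filter.2 ⟨Finset.mem_univ _, h⟩
    rcases lt_or_gt_of_ne (hy i).1 with h2 | h2
    · exact Finset.mem_union_right _ (Finset.mem_filter.2 ⟨Finset.mem_univ _, h2, hE⟩)
    · rcases lt_or_gt_of_ne (hy i).2 with h3 | h3
      · exact absurd ⟨h2, h3⟩ h1
      · exact Finset.mem_union_left _ (Finset.mem_filter.2 ⟨Finset.mem_univ _, h3, hE⟩)

theorem ned_deep (S : CZ.Sy ι) (ψ : ℝ → ℝ) (hψ : FF.Sub S.φ ψ) (N : ℕ) (hN : 32 ≤ N) (D : ℕ)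
    (hF : ¬ Deep N D ψ) (hF' : ¬ Deep N D (FF.mr ψ)) :
    CZ.nEd S ≤ (2000 * N + 2 * D) * (Fintype.card ι + 1) := by
  classical
  have hex : ∀ A : Finset ι, ∃ y : ℝ, A ∈ CZ.Sgs S → CZ.Off S y ∧ CZ.Sg S y = A := by
    intro A
    by_cases hA : A ∈ CZ.Sgs S
    · unfold CZ.Sgs at hA
      obtain ⟨y, hy1, hy2⟩ := (Finset.mem_filter.1 hA).2
      exact ⟨y, fun _ => ⟨hy1, hy2⟩⟩
    · exact ⟨0, fun h => absurd h hA⟩
  choose yy hyy using hex
  have h1 := FF.up_card S ψ hψ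
  have h2 := CZ.low_card S yy hyy
  have h3 := CZ.low_card' S yy hyy
  have h4 := CZ.sgs_card S
  have h5 := prs_deep S ψ hψ N hN D hF hF'
  have h6 : CZ.nEd S ≤ ∑ A ∈ CZ.Sgs S, _ :=
    Finset.sum_le_sum fun A hA => gz_split S A (yy A) (hyy A hA).1 (hyy A hA).2
  rw [Finset.sum_add_distrib, Finset.sum_add_distrib] at h6
  have h7 : Fintype.card ι + 1 ≤ N * (Fintype.card ι + 1) :=
    Nat.le_mul_of_pos_left _ (by omega)
  have h8 : (2000 * N + 2 * D) * (Fintype.card ι + 1) =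
      2000 * (N * (Fintype.card ι + 1)) + 2 * (D * Fintype.card ι) + 2 * D := by ring
  have h9 : 2 * D * Fintype.card ι = 2 * (D * Fintype.card ι) := by
    ring
  rw [h9, mul_assoc] at h5
  rw [h8]
  omega

end Pool.Agent.Work.MP_e64a38_co.GG
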