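import Pool.Agent.Work.MP_e64a38_co.GG.Defs

/-!
# Flattenings with steep walls and with vertical walls (size S-M)

`q_wal` is `FF.flt_wal` (file `FF/WFlt.lean`) for one quintuple: the same proof. `deep_wal`: apply it to every `j ≤ D`.
-/

set_option autoImplicit false

namespace Pool.Agent.Work.MP_e64a38_co.GG

theorem q_wal (K : ℝ) (ψ : ℝ → ℝ) (α β m M : ℝ) (hK : 1 ≤ K) (hab : α < β)
    (hm : ∀ x, α ≤ x → x ≤ β → |ψ x| ≤ m) (hM : 3 * m < M) (x0 x1 x2 x3 x4 : ℝ)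
    (h : Q K (FF.wals ψ α β M) x0 x1 x2 x3 x4) : QB K α β ψ x0 x1 x2 x3 x4 := by
  obtain ⟨o1, o2, o3, o4, k1, k2, k3, d4, d3, d2, d1⟩ := h
  set Ψ : ℝ → ℝ := FF.wals ψ α β M with hΨ
  have e1 : ∀ x, x < α → Ψ x = -M := by
    intro x hx
    rw [hΨ]
    unfold FF.wals
    rw [if_pos hx]
  have e2 : ∀ x, α ≤ x → x ≤ β → Ψ x = ψ x := by
    intro x hx hx'
    rw [hΨ]
    unfold FF.wals
    rw [if_neg (not_lt.mpr hx), if_pos hx']
  have e3 : ∀ x, β < x → Ψ x = M := by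
    intro x hx
    rw [hΨ]
    unfold FF.wals
    rw [if_neg (not_lt.mpr (hab.trans hx).le), if_neg (not_le.mpr hx)]
  have p3 : 0 < Ψ x3 - Ψ x2 := lt_of_lt_of_le d4 (by nlinarith)
  have p2 : 0 < Ψ x2 - Ψ x1 := lt_of_lt_of_le p3 (by nlinarith)
  have p1 : 0 < Ψ x1 - Ψ x0 := lt_of_lt_of_le p2 (by nlinarith)
  have q43 : Ψ x4 - Ψ x3 ≤ Ψ x3 - Ψ x2 := by nlinarith
  have a1 : α ≤ x1 := by
    by_contra hc
    have hc' := not_le.mp hc
    rw [e1 x0 (o1.trans hc'), e1 x1 hc'] at p1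
    linarith
  have b4 : x4 ≤ β := by
    by_contra hc
    have hc' := not_le.mp hc
    have b3 : x3 ≤ β := by
      by_contra hd
      rw [e3 x4 hc', e3 x3 (not_le.mp hd)] at d4
      linarith
    have m2 := hm x2 (by linarith) (by linarith)
    have m3 := hm x3 (by linarith) b3
    have m2' := (abs_le.mp m2)
    have m3' := (abs_le.mp m3)
    rw [e3 x4 hc', e2 x3 (by linarith) b3, e2 x2 (by linarith) (by linarith)] at q43
    linarith [m2'.1, m3'.2]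
  have f1 := e2 x1 a1 (by linarith)
  have f2 := e2 x2 (by linarith) (by linarith)
  have f3 := e2 x3 (by linarith) (by linarith)
  have f4 := e2 x4 (by linarith) b4
  rw [f4, f3] at d4 d3
  rw [f2] at d3 d2
  rw [f3] at d2
  rw [f1] at d2 d1
  rw [f2] at d1
  refine ⟨o1, o2, o3, o4, a1, b4, k1, k2, k3, d4, d3, d2, ?_⟩
  intro h0
  rw [e2 x0 h0 (by linarith)] at d1
  exact d1

theorem deep_wal (K : ℝ) (D : ℕ) (ψ : ℝ → ℝ) (α β m M : ℝ) (hK : 1 ≤ K) (hab : α < β)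
    (hm : ∀ x, α ≤ x → x ≤ β → |ψ x| ≤ m) (hM : 3 * m < M) (h : Deep K D (FF.wals ψ α β M)) :
    DeepB K D α β ψ := by
  obtain ⟨x1, x4, x0, x2, x3, h1, h2⟩ := h
  exact ⟨x1, x4, x0, x2, x3, fun j hj =>
    q_wal K ψ α β m M hK hab hm hM _ _ _ _ _ (h1 j hj), h2⟩

end Pool.Agent.Work.MP_e64a38_co.GG
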