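import Pool.Agent.Work.MP_e64a38_co.GG.GA3
import Pool.Agent.Work.MP_e64a38_co.GG.GA4
import Pool.Agent.Work.MP_e64a38_co.FF.WSy
import Pool.Agent.Work.MP_e64a38_co.FF.WZn
import Pool.Agent.Work.MP_e64a38_co.FF.WFlt

/-!
# The zone of a box of bounded flattening depth (size S)

Proof. Copy `FF.box_card` (file `FF/WBox.lean`), with `ned_deep` instead of `ned_card` and `deep_wal` instead of
`flt_wal` (`FF.mr_wals` is in `FF/WFlt.lean`).
-/

set_option autoImplicit false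

namespace Pool.Agent.Work.MP_e64a38_co.GG

variable {ι : Type} [Fintype ι]

open Classical in
theorem box_deep (B : FF.Box ι) (N : ℕ) (hN : 32 ≤ N) (D : ℕ)
    (h1 : ¬ DeepB N D B.α B.β B.ψ) (h2 : ¬ DeepB N D (-B.β) (-B.α) (FF.mr B.ψ)) :
    ∑ σ ∈ Finset.univ.filter (fun σ : Finset ι => B.Zn σ),
        (Finset.univ.filter (fun i => B.Eg σ i)).card ≤
      (2000 * N + 2 * D) * (Fintype.card ι + 1) := by
  classical
  have hm : ∀ x, B.α ≤ x → x ≤ B.β → |B.ψ x| ≤ |B.ψ B.α| + |B.ψ B.β| := by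
    intro x hx hx'
    obtain ⟨k1, k2⟩ := FF.wal_mono B.F B.ψ B.α B.β B.ab B.sub x hx hx'
    rw [abs_le]
    constructor
    · linarith [neg_abs_le (B.ψ B.α), abs_nonneg (B.ψ B.β)]
    · linarith [le_abs_self (B.ψ B.β), abs_nonneg (B.ψ B.α)]
  obtain ⟨M0, p0, pα, pβ, hM0⟩ := FF.box_sy B
  obtain ⟨M1, hM1⟩ := FF.wb_zn B
  have a1 := abs_nonneg (B.ψ B.α)
  have a2 := abs_nonneg (B.ψ B.β)
  have a3 := abs_nonneg M1
  have a4 := le_abs_self M1
  obtain ⟨S, hp, hq, hφ⟩ := hM0 (M0 + |M1| + 3 * (|B.ψ B.α| + |B.ψ B.β|) + 1) (by linarith)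
  set M := M0 + |M1| + 3 * (|B.ψ B.α| + |B.ψ B.β|) + 1 with hMdef
  have hsub : FF.Sub S.φ (FF.wals B.ψ B.α B.β M) := by
    rw [hφ]
    refine FF.wal_sub B.F B.ψ B.α B.β M B.ab B.sub (by linarith) ?_ ?_
    · linarith [neg_abs_le (B.ψ B.α)]
    · linarith [le_abs_self (B.ψ B.β)]
  have hN1 : (1 : ℝ) ≤ N := by exact_mod_cast (show 1 ≤ N by omega)
  have f1 : ¬ Deep N D (FF.wals B.ψ B.α B.β M) := fun h =>
    h1 (deep_wal N D B.ψ B.α B.β _ M hN1 B.ab hm (by linarith) h)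
  have f2 : ¬ Deep N D (FF.mr (FF.wals B.ψ B.α B.β M)) := by
    intro h
    rw [FF.mr_wals B.ψ B.α B.β M B.ab] at h
    refine h2 (deep_wal N D (FF.mr B.ψ) (-B.β) (-B.α) (|B.ψ B.α| + |B.ψ B.β|) M hN1
      (by linarith [B.ab]) ?_ (by linarith) h)
    intro x hx hx'
    unfold FF.mr
    rw [abs_neg]
    exact hm (-x) (by linarith) (by linarith)
  have hned := ned_deep S (FF.wals B.ψ B.α B.β M) hsub N hN D f1 f2
  refine le_trans ?_ hned
  unfold CZ.nEd
  calc ∑ σ ∈ Finset.univ.filter (fun σ : Finset ι => B.Zn σ),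
        (Finset.univ.filter (fun i => B.Eg σ i)).card
      ≤ ∑ σ ∈ Finset.univ.filter (fun σ : Finset ι => B.Zn σ),
        (Finset.univ.filter (fun i => CZ.Ed S σ i)).card := by
        refine Finset.sum_le_sum fun σ _ => Finset.card_le_card ?_
        intro i hi
        exact Finset.mem_filter.mpr ⟨Finset.mem_univ _,
          FF.wb_eg B M S hp hq hφ σ i (Finset.mem_filter.mp hi).2⟩
    _ ≤ _ := by
        refine Finset.sum_le_sum_of_subset ?_
        intro σ hσ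
        exact hM1 M (by linarith) S hp hq hφ σ (Finset.mem_filter.mp hσ).2

end Pool.Agent.Work.MP_e64a38_co.GG
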