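import Pool.Agent.Work.MP_e64a38_co.GG.GA5

/-!
# The zone of a region between walls, for all families of lines (size M)

Call the line `i` hitting if `∃ x, α < x ∧ x < β ∧ F x < p i x + q i`.
`free_miss`: if `i` is not hitting, `α ≤ X ≤ β` and `F X ≤ Y` then `p i X + q i ≤ Y`. Proof: for `α < X < β` this is
clear (`p i X + q i ≤ F X ≤ Y`). `X = α`: for `0 < t < 1` and `x = α + t (β - α)` the inequalities
`F x + ψ x (α - x) ≤ F α`, `F x + ψ x (β - x) ≤ F β` (from `hs`), multiplied by `1 - t` and `t` and added, give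
`F x ≤ (1 - t) F α + t F β`. So `p i x + q i ≤ (1 - t) F α + t F β` for all `0 < t < 1`; both sides are affine in `t`; let
`t → 0` (`le_of_tendsto`, or: if `p i α + q i - F α > 0` choose `t` small). `X = β`: the same with `t → 1`.
`free_card`: let `ι' = {i // hitting i}` and `B` the box with `p`, `q` restricted to `ι'`. For a pattern `σ` with `ZnP`
(witness `X`, `Y`) every `i ∈ σ` is hitting (`Y < p i X + q i`, `free_miss`). If `EgP σ i` then `i` is hitting. So
`σ ↦ σ' = {i : ι' | i.1 ∈ σ}` is injective on the patterns with `ZnP`, `B.Zn σ'` holds, and `EgP σ i` implies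
`B.Eg σ' i`. So the sum is at most the sum of `box_deep` for `B`, and `card ι' ≤ card ι`.
-/

set_option autoImplicit false

namespace Pool.Agent.Work.MP_e64a38_co.GG

variable {ι : Type} [Fintype ι]

private theorem gb1_end (p q : ℝ) (F : ℝ → ℝ) (u v : ℝ)
    (hx : ∀ t, 0 < t → t < 1 → p * (u + t * (v - u)) + q ≤ F (u + t * (v - u)))
    (hc : ∀ t, 0 < t → t < 1 → F (u + t * (v - u)) ≤ (1 - t) * F u + t * F v) :
    p * u + q ≤ F u := by
  by_contra h
  rw [not_le] at h
  set δ := p * u + q - F u with hδ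
  have hδ0 : 0 < δ := by linarith
  set c := |F v - p * v - q| with hcd
  have hc0 : 0 ≤ c := abs_nonneg _
  have hcle : F v - p * v - q ≤ c := le_abs_self _
  set t := δ / (2 * (c + δ)) with ht
  have hpos : 0 < c + δ := by linarith
  have ht0 : 0 < t := by positivity
  have htm : t * (c + δ) = δ / 2 := by
    rw [ht]
    field_simp
  have ht1 : t < 1 := by
    by_contra hh
    rw [not_lt] at hh
    have h1 : 1 * (c + δ) ≤ t * (c + δ) := mul_le_mul_of_nonneg_right hh hpos.le
    linarith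
  have h1 := hx t ht0 ht1
  have h2 := hc t ht0 ht1
  have h3 : t * (F v - p * v - q) ≤ t * c := mul_le_mul_of_nonneg_left hcle ht0.le
  have h4 : t * c + t * δ = δ / 2 := by
    rw [← mul_add]
    exact htm
  have h5 : (1 - t) * F u = (1 - t) * (p * u + q) - (δ - t * δ) := by
    rw [hδ]
    ring
  nlinarith

theorem free_miss (p q : ι → ℝ) (F ψ : ℝ → ℝ) (α β : ℝ) (hab : α < β)
    (hs : ∀ x z, α ≤ x → x ≤ β → α ≤ z → z ≤ β → F x + ψ x * (z - x) ≤ F z) (i : ι)
    (hi : ¬ ∃ x, α < x ∧ x < β ∧ F x < p i * x + q i) (X Y : ℝ) (h1 : α ≤ X) (h2 : X ≤ β)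
    (h3 : F X ≤ Y) : p i * X + q i ≤ Y := by
  have hle : ∀ x, α < x → x < β → p i * x + q i ≤ F x := by
    intro x hx1 hx2
    by_contra h
    exact hi ⟨x, hx1, hx2, not_le.1 h⟩
  have hconv : ∀ u v t, α ≤ u → u ≤ β → α ≤ v → v ≤ β → 0 < t → t < 1 →
      F (u + t * (v - u)) ≤ (1 - t) * F u + t * F v := by
    intro u v t hu1 hu2 hv1 hv2 ht0 ht1
    have hx : u + t * (v - u) = (1 - t) * u + t * v := by ring
    have g1 : α ≤ u + t * (v - u) := by
      rw [hx]
      nlinarith
    have g2 : u + t * (v - u) ≤ β := by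
      rw [hx]
      nlinarith
    have e1 := hs _ u g1 g2 hu1 hu2
    have e2 := hs _ v g1 g2 hv1 hv2
    have e3 := mul_le_mul_of_nonneg_left e1 (by linarith : (0 : ℝ) ≤ 1 - t)
    have e4 := mul_le_mul_of_nonneg_left e2 ht0.le
    have e5 : (1 - t) * (F (u + t * (v - u)) + ψ (u + t * (v - u)) * (u - (u + t * (v - u)))) +
        t * (F (u + t * (v - u)) + ψ (u + t * (v - u)) * (v - (u + t * (v - u)))) =
        F (u + t * (v - u)) := by ring
    linarith
  refine le_trans ?_ h3
  rcases eq_or_lt_of_le h1 with hα | hα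
  · rw [← hα]
    refine gb1_end (p i) (q i) F α β (fun t ht0 ht1 => hle _ (by nlinarith) (by nlinarith))
      (fun t ht0 ht1 => hconv α β t le_rfl hab.le hab.le le_rfl ht0 ht1)
  · rcases eq_or_lt_of_le h2 with hβ | hβ
    · rw [hβ]
      refine gb1_end (p i) (q i) F β α (fun t ht0 ht1 => hle _ (by nlinarith) (by nlinarith))
        (fun t ht0 ht1 => hconv β α t hab.le le_rfl le_rfl hab.le ht0 ht1)
    · exact hle X hα hβ

open Classical in
theorem free_card (p q : ι → ℝ) (F ψ : ℝ → ℝ) (α β : ℝ) (hab : α < β)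
    (hs : ∀ x z, α ≤ x → x ≤ β → α ≤ z → z ≤ β → F x + ψ x * (z - x) ≤ F z)
    (hi : ∀ i j, p i = p j → q i = q j → i = j) (N : ℕ) (hN : 32 ≤ N) (D : ℕ)
    (h1 : ¬ DeepB N D α β ψ) (h2 : ¬ DeepB N D (-β) (-α) (FF.mr ψ)) :
    ∑ σ ∈ Finset.univ.filter (fun σ : Finset ι => ZnP p q F α β σ),
        (Finset.univ.filter (fun i => EgP p q F α β σ i)).card ≤
      (2000 * N + 2 * D) * (Fintype.card ι + 1) := by
  let B : FF.Box {i : ι // ∃ x, α < x ∧ x < β ∧ F x < p i * x + q i} :=
    { p := fun i => p i.1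
      q := fun i => q i.1
      F := F
      ψ := ψ
      α := α
      β := β
      ab := hab
      sub := hs
      inj := fun i j h h' => Subtype.ext (hi _ _ h h')
      hit := fun i => i.2 }
  have hbox := box_deep B N hN D h1 h2
  set φ : Finset ι → Finset {i : ι // ∃ x, α < x ∧ x < β ∧ F x < p i * x + q i} :=
    fun σ => Finset.univ.filter (fun i => i.1 ∈ σ) with hφ
  have hφm : ∀ σ i, i ∈ φ σ ↔ i.1 ∈ σ := by
    intro σ i
    rw [hφ]
    simp
  have hhit : ∀ σ, ZnP p q F α β σ → ∀ i ∈ σ, ∃ x, α < x ∧ x < β ∧ F x < p i * x + q i := by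
    rintro σ ⟨X, Y, g1, g2, g3, -, g5⟩ i hiσ
    by_contra hcon
    have h3 := free_miss p q F ψ α β hab hs i hcon X Y g1 g2 g3
    have h4 := (g5 i).2.1 hiσ
    linarith
  have hinj : Set.InjOn φ (Finset.univ.filter (fun σ : Finset ι => ZnP p q F α β σ) :
      Finset (Finset ι)) := by
    intro σ hσ τ hτ hst
    have hσ' : ZnP p q F α β σ := (Finset.mem_filter.1 hσ).2
    have hτ' : ZnP p q F α β τ := (Finset.mem_filter.1 hτ).2
    have hsub : ∀ σ τ : Finset ι, ZnP p q F α β σ → φ σ = φ τ → σ ⊆ τ := by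
      intro σ τ hσ h i hiσ
      have h3 : (⟨i, hhit σ hσ i hiσ⟩ : {i : ι // ∃ x, α < x ∧ x < β ∧ F x < p i * x + q i}) ∈
        φ τ := by
        rw [← h, hφm]
        exact hiσ
      rw [hφm] at h3
      exact h3
    exact Finset.Subset.antisymm (hsub σ τ hσ' hst) (hsub τ σ hτ' hst.symm)
  have hle : ∀ σ ∈ Finset.univ.filter (fun σ : Finset ι => ZnP p q F α β σ),
      (Finset.univ.filter (fun i => EgP p q F α β σ i)).card ≤
      (Finset.univ.filter (fun i => B.Eg (φ σ) i)).card := by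
    intro σ _
    have hsub : Finset.univ.filter (fun i => EgP p q F α β σ i) ⊆
        (Finset.univ.filter (fun i => B.Eg (φ σ) i)).image Subtype.val := by
      intro i hi'
      obtain ⟨x, g1, g2, g3, g4⟩ := (Finset.mem_filter.1 hi').2
      rw [Finset.mem_image]
      refine ⟨⟨i, x, g1, g2, g3⟩, ?_, rfl⟩
      rw [Finset.mem_filter]
      refine ⟨Finset.mem_univ _, x, g1, g2, g3, fun j hj => ?_⟩
      have hji : j.1 ≠ i := fun h => hj (Subtype.ext h)
      refine ⟨fun hjσ => (g4 j.1 hji).1 ((hφm σ j).1 hjσ),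
        fun hjσ => (g4 j.1 hji).2 (fun h => hjσ ((hφm σ j).2 h))⟩
    exact (Finset.card_le_card hsub).trans Finset.card_image_le
  calc ∑ σ ∈ Finset.univ.filter (fun σ : Finset ι => ZnP p q F α β σ),
        (Finset.univ.filter (fun i => EgP p q F α β σ i)).card
      ≤ ∑ σ ∈ Finset.univ.filter (fun σ : Finset ι => ZnP p q F α β σ),
        (Finset.univ.filter (fun i => B.Eg (φ σ) i)).card := Finset.sum_le_sum hle
    _ = ∑ σ' ∈ (Finset.univ.filter (fun σ : Finset ι => ZnP p q F α β σ)).image φ,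
        (Finset.univ.filter (fun i => B.Eg σ' i)).card := by
        rw [Finset.sum_image hinj]
    _ ≤ ∑ σ' ∈ Finset.univ.filter (fun σ => B.Zn σ),
        (Finset.univ.filter (fun i => B.Eg σ' i)).card := by
        refine Finset.sum_le_sum_of_subset ?_
        intro σ' hσ'
        obtain ⟨σ, hσ, rfl⟩ := Finset.mem_image.1 hσ'
        obtain ⟨X, Y, g1, g2, g3, g4, g5⟩ := (Finset.mem_filter.1 hσ).2
        rw [Finset.mem_filter]
        refine ⟨Finset.mem_univ _, X, Y, g1, g2, g3, g4, fun i => ⟨(g5 i.1).1, ?_⟩⟩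
        rw [hφm]
        exact (g5 i.1).2
    _ ≤ (2000 * N + 2 * D) *
        (Fintype.card {i : ι // ∃ x, α < x ∧ x < β ∧ F x < p i * x + q i} + 1) := hbox
    _ ≤ (2000 * N + 2 * D) * (Fintype.card ι + 1) := by
        refine Nat.mul_le_mul_left _ (Nat.succ_le_succ ?_)
        exact Fintype.card_subtype_le _

end Pool.Agent.Work.MP_e64a38_co.GG
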