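import Pool.Agent.Work.MP_e64a38_co.GG.Defs

/-!
# Lines in projective coordinates (size S-M)

`ev_co`: Cramer's rule, `unfold`, `field_simp` (with `T.det`), `ring`.
`ev_mod`: divide `ev_co` by `W` and `cB`.
`mod_pts`: `ps = ps'` and `qs = qs'` give `cA cB' = cA' cB`, `cC cB' = cC' cB`, so by `ev_co`
`cB' * l.ev z = cB * l'.ev z` for all `z`.
`pt_inj`: `s i = decide (cB < 0)` if and only if `s' i = decide (cB < 0)`, so `s i = s' i` (Booleans).
`pt_lt`: by `ev_mod` `(l i).ev z` has the sign of `cB * (Y - line)`. If `s i = true` then `0 < (l i).ev z`, if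
`s i = false` then `(l i).ev z < 0` (`sb`); four cases with the sign of `cB`.
-/

set_option autoImplicit false

namespace Pool.Agent.Work.MP_e64a38_co.GG

variable {n : ℕ}

theorem ev_co (T : Ch) (l : Ln) (z : ℝ × ℝ) :
    l.ev z = cA T l * T.U.v z + cB T l * T.V.v z + cC T l * T.W.v z := by
  have hd := T.det
  have key : det3 T.U T.V T.W * l.ev z = det3 (fo l) T.V T.W * T.U.v z +
      det3 T.U (fo l) T.W * T.V.v z + det3 T.U T.V (fo l) * T.W.v z := by
    simp only [det3, fo, Ln.ev, Fm.v]
    ring
  unfold cA cB cC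
  rw [div_mul_eq_mul_div, div_mul_eq_mul_div, div_mul_eq_mul_div, ← add_div, ← add_div, ← key,
    mul_div_cancel_left₀ _ hd]

theorem ev_mod (T : Ch) (l : Ln) (z : ℝ × ℝ) (hW : T.W.v z ≠ 0) (hB : cB T l ≠ 0) :
    l.ev z = T.W.v z * (cB T l * (T.Y z - (ps T l * T.X z + qs T l))) := by
  rw [ev_co T l z]
  unfold ps qs Ch.X Ch.Y
  field_simp
  ring

theorem mod_pts (T : Ch) (l l' : Ln) (hB : cB T l ≠ 0) (hB' : cB T l' ≠ 0)
    (hp : ps T l = ps T l') (hq : qs T l = qs T l') : l.pts = l'.pts := by
  unfold ps at hp
  unfold qs at hq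
  rw [div_eq_div_iff hB hB'] at hp hq
  have key : ∀ z, cB T l' * l.ev z = cB T l * l'.ev z := by
    intro z
    rw [ev_co T l z, ev_co T l' z]
    linear_combination (- T.U.v z) * hp - T.W.v z * hq
  ext z
  simp only [Ln.pts, Set.mem_ofPred_eq]
  constructor
  · intro h
    have h1 := key z
    rw [h, mul_zero] at h1
    exact (mul_eq_zero.mp h1.symm).resolve_left hB
  · intro h
    have h1 := key z
    rw [h, mul_zero] at h1
    exact (mul_eq_zero.mp h1).resolve_left hB'

theorem pt_inj (T : Ch) (l : Fin n → Ln) (s s' : Fin n → Bool) (h : pt T l s = pt T l s') :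
    s = s' := by
  classical
  funext i
  have h1 : i ∈ pt T l s ↔ i ∈ pt T l s' := by rw [h]
  simp only [pt, Finset.mem_filter, Finset.mem_univ, true_and] at h1
  generalize decide (cB T (l i) < 0) = d at h1
  revert h1
  cases s i <;> cases s' i <;> cases d <;> simp

theorem pt_lt (T : Ch) (l : Fin n → Ln) (s : Fin n → Bool) (i : Fin n) (z : ℝ × ℝ)
    (hW : 0 < T.W.v z) (hB : cB T (l i) ≠ 0) (hs : 0 < sb (s i) * (l i).ev z) :
    T.Y z ≠ ps T (l i) * T.X z + qs T (l i) ∧
      (i ∈ pt T l s ↔ T.Y z < ps T (l i) * T.X z + qs T (l i)) := by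
  classical
  have he := ev_mod T (l i) z hW.ne' hB
  rw [he] at hs
  generalize ps T (l i) * T.X z + qs T (l i) = L at hs ⊢
  generalize T.Y z = Y at hs ⊢
  simp only [pt, Finset.mem_filter, Finset.mem_univ, true_and]
  have h2 : 0 < sb (s i) * (cB T (l i) * (Y - L)) := by
    have h3 : sb (s i) * (T.W.v z * (cB T (l i) * (Y - L))) =
        T.W.v z * (sb (s i) * (cB T (l i) * (Y - L))) := by ring
    rw [h3] at hs
    exact (mul_pos_iff_of_pos_left hW).mp hs
  clear hs he
  generalize cB T (l i) = c at hB h2 ⊢
  have hne : Y ≠ L := by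
    rintro rfl
    simp at h2
  refine ⟨hne, ?_⟩
  rcases lt_or_gt_of_ne hB with hc | hc
  · have hd : decide (c < 0) = true := by simpa using hc
    rw [hd]
    cases hsi : s i with
    | false =>
      rw [hsi] at h2
      simp only [sb, Bool.false_eq_true, if_false] at h2
      constructor
      · intro h
        exact absurd h (by simp)
      · intro h
        exfalso
        nlinarith
    | true =>
      rw [hsi] at h2
      simp only [sb, if_true] at h2
      constructor
      · intro _
        by_contra h
        push Not at h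
        nlinarith
      · intro _
        rfl
  · have hd : decide (c < 0) = false := by simpa using hc.le
    rw [hd]
    cases hsi : s i with
    | false =>
      rw [hsi] at h2
      simp only [sb, Bool.false_eq_true, if_false] at h2
      constructor
      · intro _
        by_contra h
        push Not at h
        nlinarith
      · intro _
        rfl
    | true =>
      rw [hsi] at h2
      simp only [sb, if_true] at h2
      constructor
      · intro h
        exact absurd h (by simp)
      · intro h
        exfalso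
        nlinarith

theorem mir_X (T : Ch) (z : ℝ × ℝ) : T.mir.X z = - T.X z := by
  simp only [Ch.X, Ch.mir, Fm.v]
  rw [← neg_div]
  congr 1
  ring

theorem mir_Y (T : Ch) (z : ℝ × ℝ) : T.mir.Y z = T.Y z := rfl

theorem cB_mir (T : Ch) (l : Ln) : cB T.mir l = cB T l := by
  have h1 : det3 T.mir.U (fo l) T.mir.W = - det3 T.U (fo l) T.W := by
    simp only [det3, Ch.mir]
    ring
  have h2 : det3 T.mir.U T.mir.V T.mir.W = - det3 T.U T.V T.W := by
    simp only [det3, Ch.mir]
    ring
  unfold cB
  rw [h1, h2, neg_div_neg_eq]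

end Pool.Agent.Work.MP_e64a38_co.GG
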