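import Pool.Agent.Work.MP_e64a38_co.GG.GB1
import Pool.Agent.Work.MP_e64a38_co.GG.GB2

/-!
# The number of edges in the main box of a window (size M)

Let `p i = ps T (l i)`, `q i = qs T (l i)`. `mod_pts` and `hl` give the hypothesis `hi` of `free_card`. The map
`s ↦ pt T l s` is injective (`pt_inj`). If `MainP T l α β φ s i` then
(1) `ZnP p q φ α β (pt T l s)`: the witness `z` gives `X = T.X z`, `Y = T.Y z = φ X`; `pt_lt` for every line.
(2) `EgP p q φ α β (pt T l s) i`: the witness `z` gives `x = T.X z`; `(l i).ev z = 0` and `ev_mod` give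
`T.Y z = p i x + q i`; for `j ≠ i` `pt_lt` gives `j ∈ σ ↔ Y < p j x + q j` and `Y ≠ p j x + q j`.
So the sum over `s` is at most the sum over the patterns `σ` with `ZnP` (`Finset.sum_image`; if `MainP s i` for no `i` the
summand is zero), which is bounded by `free_card`.
-/

set_option autoImplicit false

namespace Pool.Agent.Work.MP_e64a38_co.GG

variable {n : ℕ}

open Classical in
theorem main_card (T : Ch) (l : Fin n → Ln) (hl : Function.Injective (fun i => (l i).pts))
    (hB : ∀ i, cB T (l i) ≠ 0) (α β : ℝ) (φ ψ : ℝ → ℝ) (hab : α < β)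
    (hs : ∀ x z, α ≤ x → x ≤ β → α ≤ z → z ≤ β → φ x + ψ x * (z - x) ≤ φ z) (N : ℕ) (hN : 32 ≤ N)
    (D : ℕ) (h1 : ¬ DeepB N D α β ψ) (h2 : ¬ DeepB N D (-β) (-α) (FF.mr ψ)) :
    ∑ s : Fin n → Bool, (Finset.univ.filter (fun i => MainP T l α β φ s i)).card ≤
      (2000 * N + 2 * D) * (n + 1) := by
  have hi : ∀ i j : Fin n, ps T (l i) = ps T (l j) → qs T (l i) = qs T (l j) → i = j := by
    intro i j h3 h4
    exact hl (mod_pts T (l i) (l j) (hB i) (hB j) h3 h4)
  have hfree := free_card (fun i => ps T (l i)) (fun i => qs T (l i)) φ ψ α β hab hs hi N hN D h1 h2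
  rw [Fintype.card_fin] at hfree
  refine le_trans ?_ hfree
  have hzn : ∀ (s : Fin n → Bool) (i : Fin n), MainP T l α β φ s i →
      ZnP (fun i => ps T (l i)) (fun i => qs T (l i)) φ α β (pt T l s) := by
    rintro s i ⟨⟨z, hW, h3, h4, h5, h6⟩, -⟩
    exact ⟨T.X z, T.Y z, h3, h4, h5.symm.le, Or.inl h5, fun j => pt_lt T l s j z hW (hB j) (h6 j)⟩
  have heg : ∀ (s : Fin n → Bool) (i : Fin n), MainP T l α β φ s i →
      EgP (fun i => ps T (l i)) (fun i => qs T (l i)) φ α β (pt T l s) i := by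
    rintro s i ⟨-, z, hW, h3, h4, h5, h6, h7⟩
    have h8 : T.Y z = ps T (l i) * T.X z + qs T (l i) := by
      have h9 := ev_mod T (l i) z hW.ne' (hB i)
      rw [h6] at h9
      rcases mul_eq_zero.1 h9.symm with h10 | h10
      · exact absurd h10 hW.ne'
      · rcases mul_eq_zero.1 h10 with h11 | h11
        · exact absurd h11 (hB i)
        · linarith
    refine ⟨T.X z, h3, h4, by rw [← h8]; exact h5, fun j hj => ?_⟩
    have h9 := pt_lt T l s j z hW (hB j) (h7 j hj)
    show (j ∈ pt T l s → ps T (l i) * T.X z + qs T (l i) < ps T (l j) * T.X z + qs T (l j)) ∧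
      (j ∉ pt T l s → ps T (l j) * T.X z + qs T (l j) < ps T (l i) * T.X z + qs T (l i))
    rw [← h8]
    refine ⟨fun h10 => h9.2.1 h10, fun h10 => ?_⟩
    have h11 : ¬ T.Y z < ps T (l j) * T.X z + qs T (l j) := fun h12 => h10 (h9.2.2 h12)
    exact lt_of_le_of_ne (not_lt.1 h11) (Ne.symm h9.1)
  obtain ⟨g, hg⟩ : ∃ g : Finset (Fin n) → ℕ, ∀ σ, g σ =
      if ZnP (fun i => ps T (l i)) (fun i => qs T (l i)) φ α β σ then
        (Finset.univ.filter (fun i =>
          EgP (fun i => ps T (l i)) (fun i => qs T (l i)) φ α β σ i)).card else 0 :=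
    ⟨_, fun σ => rfl⟩
  have hstep : ∀ s : Fin n → Bool,
      (Finset.univ.filter (fun i => MainP T l α β φ s i)).card ≤ g (pt T l s) := by
    intro s
    rw [hg]
    rcases (Finset.univ.filter (fun i => MainP T l α β φ s i)).eq_empty_or_nonempty with h3 | h3
    · rw [h3, Finset.card_empty]
      exact Nat.zero_le _
    · obtain ⟨i, hi3⟩ := h3
      have h4 := hzn s i (Finset.mem_filter.1 hi3).2
      rw [if_pos h4]
      apply Finset.card_le_card
      intro j hj
      rw [Finset.mem_filter] at hj ⊢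
      exact ⟨hj.1, heg s j hj.2⟩
  refine le_trans (Finset.sum_le_sum fun s _ => hstep s) ?_
  have hinj : Set.InjOn (pt T l) (Finset.univ : Finset (Fin n → Bool)) := by
    intro s _ s' _ h3
    exact pt_inj T l s s' h3
  rw [← Finset.sum_image hinj, Finset.sum_filter]
  refine le_trans (Finset.sum_le_sum_of_subset (Finset.subset_univ _)) ?_
  exact Finset.sum_le_sum fun σ _ => le_of_eq (hg σ)

end Pool.Agent.Work.MP_e64a38_co.GG
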