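import Pool.Agent.Work.MP_e64a38_co.GG.GB1
import Pool.Agent.Work.MP_e64a38_co.GG.GB2

/-!
# The number of edges beyond a wall (size M)

Let `p i = ps T (l i)`, `q i = qs T (l i)`. For every pair `(s, i)` with `RightP` choose the two witnesses `z1`, `z2`. There
are finitely many pairs, so there are `β' > β` with `T.X z2 < β'` and a constant `M` with `- M < T.Y z1`, `- M < T.Y z2` for
all of them. Apply `free_card` with `F x = - M`, `ψ = 0`, the walls `β`, `β'`, `N = 32`, `D = 0`: there is no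
`DeepB 32 0 _ _ 0` (`0 < ψ x4 - ψ x3` fails, also for `FF.mr 0`), and `mod_pts`, `hl` give `hi`. `RightP s i` gives
`ZnP p q F β β' (pt T l s)` with `X = β = T.X z1` (a wall), `Y = T.Y z1`, and `EgP p q F β β' (pt T l s) i` with
`x = T.X z2`, `T.Y z2 = p i x + q i` (`ev_mod`), as in the proof of `main_card`. `pt_inj`. The bound is
`(2000 * 32 + 0) (n + 1)`.
`left_card`: `right_card` for the chart `T.mir` and the wall `- α` (`cB_mir`).
-/

set_option autoImplicit false

namespace Pool.Agent.Work.MP_e64a38_co.GG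

variable {n : ℕ}

open Classical in
theorem right_card (T : Ch) (l : Fin n → Ln) (hl : Function.Injective (fun i => (l i).pts))
    (hB : ∀ i, cB T (l i) ≠ 0) (β : ℝ) :
    ∑ s : Fin n → Bool, (Finset.univ.filter (fun i => RightP T l β s i)).card ≤
      64000 * (n + 1) := by
  have h : ∀ t : (Fin n → Bool) × Fin n, ∃ z1 z2 : ℝ × ℝ, RightP T l β t.1 t.2 →
      (0 < T.W.v z1 ∧ T.X z1 = β ∧ Sg l t.1 z1) ∧ 0 < T.W.v z2 ∧ β < T.X z2 ∧
        Se l t.1 t.2 z2 := by
    intro t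
    by_cases ht : RightP T l β t.1 t.2
    · obtain ⟨⟨z1, h1⟩, z2, h2⟩ := ht
      exact ⟨z1, z2, fun _ => ⟨h1, h2⟩⟩
    · exact ⟨0, 0, fun h' => absurd h' ht⟩
  choose z1 z2 hz using h
  obtain ⟨c, hc⟩ : ∃ c, ∀ t, T.X (z2 t) ≤ c := by
    obtain ⟨c, hc⟩ := (Set.finite_range fun t => T.X (z2 t)).bddAbove
    exact ⟨c, fun t => hc ⟨t, rfl⟩⟩
  obtain ⟨m1, hm1⟩ : ∃ m, ∀ t, m ≤ T.Y (z1 t) := by
    obtain ⟨c, hc⟩ := (Set.finite_range fun t => T.Y (z1 t)).bddBelow
    exact ⟨c, fun t => hc ⟨t, rfl⟩⟩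
  obtain ⟨m2, hm2⟩ : ∃ m, ∀ t, m ≤ T.Y (z2 t) := by
    obtain ⟨c, hc⟩ := (Set.finite_range fun t => T.Y (z2 t)).bddBelow
    exact ⟨c, fun t => hc ⟨t, rfl⟩⟩
  obtain ⟨β', hβ1, hβ2⟩ : ∃ β', β < β' ∧ ∀ t, T.X (z2 t) < β' :=
    ⟨max c β + 1, (le_max_right c β).trans_lt (lt_add_one _), fun t =>
      ((hc t).trans (le_max_left c β)).trans_lt (lt_add_one _)⟩
  obtain ⟨m, hm3, hm4⟩ : ∃ m, (∀ t, m < T.Y (z1 t)) ∧ ∀ t, m < T.Y (z2 t) :=
    ⟨min m1 m2 - 1, fun t => lt_of_lt_of_le (sub_one_lt _) ((min_le_left m1 m2).trans (hm1 t)),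
      fun t => lt_of_lt_of_le (sub_one_lt _) ((min_le_right m1 m2).trans (hm2 t))⟩
  have key := free_card (fun i => ps T (l i)) (fun i => qs T (l i)) (fun _ => m) (fun _ => 0) β β'
    hβ1 (fun x z _ _ _ _ => by simp)
    (fun i j hp hq => hl (mod_pts T (l i) (l j) (hB i) (hB j) hp hq)) 32 le_rfl 0
    (by
      rintro ⟨x1, x4, x0, x2, x3, hQ, -⟩
      have h0 := (hQ 0 le_rfl).2.2.2.2.2.2.2.2.2.1
      simp at h0)
    (by
      rintro ⟨x1, x4, x0, x2, x3, hQ, -⟩
      have h0 := (hQ 0 le_rfl).2.2.2.2.2.2.2.2.2.1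
      simp [FF.mr] at h0)
  rw [Fintype.card_fin] at key
  refine le_trans ?_ (key.trans (le_of_eq (by ring)))
  have hZ : ∀ s : Fin n → Bool, (∃ i, RightP T l β s i) →
      ZnP (fun i => ps T (l i)) (fun i => qs T (l i)) (fun _ => m) β β' (pt T l s) := by
    rintro s ⟨i, hi⟩
    obtain ⟨⟨hW, hX, hS⟩, -⟩ := hz (s, i) hi
    refine ⟨T.X (z1 (s, i)), T.Y (z1 (s, i)), hX.ge, hX.le.trans hβ1.le, (hm3 _).le,
      Or.inr (Or.inl hX), fun j => ?_⟩
    exact pt_lt T l s j _ hW (hB j) (hS j)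
  have hE : ∀ (s : Fin n → Bool) (i : Fin n), RightP T l β s i →
      EgP (fun i => ps T (l i)) (fun i => qs T (l i)) (fun _ => m) β β' (pt T l s) i := by
    intro s i hi
    obtain ⟨-, hW, hX, h0, hS⟩ := hz (s, i) hi
    have hY : T.Y (z2 (s, i)) = ps T (l i) * T.X (z2 (s, i)) + qs T (l i) := by
      have h1 := ev_mod T (l i) (z2 (s, i)) hW.ne' (hB i)
      rw [h0] at h1
      have h2 := (mul_eq_zero.mp h1.symm).resolve_left hW.ne'
      have h3 := (mul_eq_zero.mp h2).resolve_left (hB i)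
      exact sub_eq_zero.mp h3
    refine ⟨T.X (z2 (s, i)), hX, hβ2 _, ?_, fun j hj => ?_⟩
    · change m < ps T (l i) * T.X (z2 (s, i)) + qs T (l i)
      rw [← hY]
      exact hm4 _
    · obtain ⟨h1, h2⟩ := pt_lt T l s j (z2 (s, i)) hW (hB j) (hS j hj)
      change (j ∈ pt T l s → ps T (l i) * T.X (z2 (s, i)) + qs T (l i) <
          ps T (l j) * T.X (z2 (s, i)) + qs T (l j)) ∧
        (j ∉ pt T l s → ps T (l j) * T.X (z2 (s, i)) + qs T (l j) <
          ps T (l i) * T.X (z2 (s, i)) + qs T (l i))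
      rw [← hY]
      exact ⟨fun h => h2.mp h, fun h => lt_of_le_of_ne (not_lt.mp fun h' => h (h2.mpr h')) h1.symm⟩
  calc ∑ s : Fin n → Bool, (Finset.univ.filter (fun i => RightP T l β s i)).card
      = ∑ s ∈ Finset.univ.filter (fun s : Fin n → Bool =>
          (Finset.univ.filter (fun i => RightP T l β s i)).card ≠ 0),
          (Finset.univ.filter (fun i => RightP T l β s i)).card :=
        (Finset.sum_filter_ne_zero _).symm
    _ ≤ ∑ s ∈ Finset.univ.filter (fun s : Fin n → Bool =>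
          (Finset.univ.filter (fun i => RightP T l β s i)).card ≠ 0),
          (Finset.univ.filter (fun i => EgP (fun i => ps T (l i)) (fun i => qs T (l i))
            (fun _ => m) β β' (pt T l s) i)).card := by
        refine Finset.sum_le_sum fun s _ => Finset.card_le_card ?_
        intro i hi
        rw [Finset.mem_filter] at hi ⊢
        exact ⟨hi.1, hE s i hi.2⟩
    _ = ∑ σ ∈ (Finset.univ.filter (fun s : Fin n → Bool =>
          (Finset.univ.filter (fun i => RightP T l β s i)).card ≠ 0)).image (pt T l),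
          (Finset.univ.filter (fun i => EgP (fun i => ps T (l i)) (fun i => qs T (l i))
            (fun _ => m) β β' σ i)).card := by
        rw [Finset.sum_image]
        intro s _ s' _ hss
        exact pt_inj T l s s' hss
    _ ≤ _ := by
        refine Finset.sum_le_sum_of_subset ?_
        intro σ hσ
        rw [Finset.mem_image] at hσ
        obtain ⟨s, hs, rfl⟩ := hσ
        rw [Finset.mem_filter] at hs ⊢
        refine ⟨Finset.mem_univ _, hZ s ?_⟩
        obtain ⟨i, hi⟩ := Finset.card_pos.mp (Nat.pos_of_ne_zero hs.2)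
        rw [Finset.mem_filter] at hi
        exact ⟨i, hi.2⟩

open Classical in
theorem left_card (T : Ch) (l : Fin n → Ln) (hl : Function.Injective (fun i => (l i).pts))
    (hB : ∀ i, cB T (l i) ≠ 0) (α : ℝ) :
    ∑ s : Fin n → Bool, (Finset.univ.filter (fun i => RightP T.mir l (-α) s i)).card ≤
      64000 * (n + 1) :=
  right_card T.mir l hl (fun i => by
    rw [cB_mir]
    exact hB i) (-α)

end Pool.Agent.Work.MP_e64a38_co.GG
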