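import Pool.Agent.Work.MP_e64a38_co.GG.GB6

/-!
# Every edge of a zone cell is seen in a window (size M)

`ZonG` gives a side `j` and a point `z1` with `IZ.Rel h j z1` and `Sg l s z1`; `z1 ∈ bd h`, so `hcov` gives a window `w`
with `0 < W z1`, `α ≤ X z1 ≤ β`, `Y z1 = φ (X z1)`. `EdgG` gives `z2 ∈ inn h` with `Se l s i z2`; `0 < W z2` (`LB`).
(1) `α < X z2 < β`: `MainP`. It remains to show `φ (X z2) < Y z2`. Let `x = X z2`. There is `z3 ∈ inn h` with `X z3 = x`
and `Y z3 < Y z2`; then `φ x ≤ Y z3` by the last part of `LB` (`X z3 - x = 0`). To find `z3`: let `e` be a vector in the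
plane along which `U - x W` does not change and `V - Y(z2) W` decreases: with `A = (U.a - x W.a, U.b - x W.b)` take
`e = ± (A.2, - A.1)`. The form `G = U - x W` vanishes at `z2`, and so does `H = V - Y(z2) W`. The derivative of `H` along
`e` is not zero: otherwise the two forms `G`, `H` (both zero at `z2`) and the vectors show that `G`, `H`, `W` are
dependent, but `det3 G H W = det3 U V W ≠ 0`. (If `A = 0` then `G` is a constant and zero, also impossible.) Choose the
sign such that it is negative, and `z3 = z2 + t e`, `t > 0` small: `z3 ∈ inn h`, `W z3 > 0`, `U z3 = x W z3`,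
`V z3 < Y(z2) W z3`. (Another way: `EdgG` is in the open set `inn h`; the coordinates `(X, Y)` are an open map there.)
(2) `β ≤ X z2`: `edge_move` gives `z2' ∈ inn h` with `β < X z2'`; `seg_wall` for `z1`, `z2'` gives `RightP T l β s i`.
(3) `X z2 ≤ α`: `edge_move` gives `z2'` with `X z2' < α`. For the chart `T.mir` (`mir_X`; `T.mir.W = T.W`): `X` becomes
`- X`, `seg_wall` for `T.mir` and the wall `- α` gives `RightP T.mir l (-α) s i`.
-/

set_option autoImplicit false

namespace Pool.Agent.Work.MP_e64a38_co.GG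

variable {n k : ℕ}

private theorem gb9_det (T : Ch) (x y : ℝ) (z : ℝ × ℝ) (hx : T.U.v z = x * T.W.v z)
    (hy : T.V.v z = y * T.W.v z) :
    det3 T.U T.V T.W = T.W.v z * ((T.U.a - x * T.W.a) * (T.V.b - y * T.W.b)
      - (T.U.b - x * T.W.b) * (T.V.a - y * T.W.a)) := by
  unfold det3
  unfold Fm.v at *
  linear_combination (T.V.a * T.W.b - T.V.b * T.W.a) * hx
    - (T.U.a * T.W.b - T.U.b * T.W.a) * hy

private theorem gb9_down (T : Ch) (h : Fin k → Ln) (hW : ∀ z ∈ inn h, 0 < T.W.v z) (z : ℝ × ℝ)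
    (hz : z ∈ inn h) : ∃ z' ∈ inn h, T.X z' = T.X z ∧ T.Y z' < T.Y z := by
  have hWz := hW z hz
  set x := T.X z with hx
  set y := T.Y z with hy
  have hU : T.U.v z = x * T.W.v z := by
    rw [hx]
    unfold Ch.X
    field_simp
  have hV : T.V.v z = y * T.W.v z := by
    rw [hy]
    unfold Ch.Y
    field_simp
  have hdet := gb9_det T x y z hU hV
  set d : ℝ := (T.V.a - y * T.W.a) * (T.U.b - x * T.W.b)
    - (T.V.b - y * T.W.b) * (T.U.a - x * T.W.a) with hd
  have hd0 : d ≠ 0 := by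
    intro h0
    apply T.det
    rw [hdet]
    have : (T.U.a - x * T.W.a) * (T.V.b - y * T.W.b)
      - (T.U.b - x * T.W.b) * (T.V.a - y * T.W.a) = -d := by rw [hd]; ring
    rw [this, h0]
    ring
  -- the moved point
  let P : ℝ → ℝ × ℝ := fun t => (z.1 - t * d * (T.U.b - x * T.W.b), z.2 + t * d * (T.U.a - x * T.W.a))
  have hPcont : ∀ j, Continuous (fun t => (h j).ev (P t)) := by
    intro j
    simp only [P, Ln.ev]
    fun_prop
  have hP0 : P 0 = z := by
    simp [P]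
  have hev : ∀ᶠ t in nhdsWithin (0 : ℝ) (Set.Ioi 0), P t ∈ inn h := by
    refine Filter.Eventually.filter_mono nhdsWithin_le_nhds ?_
    have h1 : ∀ᶠ t in nhds (0 : ℝ), ∀ j, (h j).ev (P t) < 0 := by
      rw [Filter.eventually_all]
      intro j
      have h2 : (h j).ev (P 0) < 0 := by rw [hP0]; exact hz j
      exact ((hPcont j).tendsto 0).eventually_lt_const h2
    exact h1
  obtain ⟨t, ht1, ht2⟩ := (hev.and self_mem_nhdsWithin).exists
  have ht : 0 < t := ht2
  have hWt := hW _ ht1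
  have hUt : T.U.v (P t) = x * T.W.v (P t) := by
    have e1 : T.U.v (P t) = T.U.v z + t * d * (- T.U.a * (T.U.b - x * T.W.b)
        + T.U.b * (T.U.a - x * T.W.a)) := by
      simp only [P, Fm.v]
      ring
    have e2 : T.W.v (P t) = T.W.v z + t * d * (- T.W.a * (T.U.b - x * T.W.b)
        + T.W.b * (T.U.a - x * T.W.a)) := by
      simp only [P, Fm.v]
      ring
    rw [e1, e2, hU]
    ring
  have hVt : T.V.v (P t) = y * T.W.v (P t) - t * d ^ 2 := by
    have e1 : T.V.v (P t) = T.V.v z + t * d * (- T.V.a * (T.U.b - x * T.W.b)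
        + T.V.b * (T.U.a - x * T.W.a)) := by
      simp only [P, Fm.v]
      ring
    have e2 : T.W.v (P t) = T.W.v z + t * d * (- T.W.a * (T.U.b - x * T.W.b)
        + T.W.b * (T.U.a - x * T.W.a)) := by
      simp only [P, Fm.v]
      ring
    rw [e1, e2, hV, hd]
    ring
  refine ⟨P t, ht1, ?_, ?_⟩
  · unfold Ch.X
    rw [hUt]
    field_simp
  · unfold Ch.Y
    rw [div_lt_iff₀ hWt, hVt]
    have : 0 < t * d ^ 2 := by positivity
    linarith

theorem win_case (l : Fin n → Ln) (h : Fin k → Ln) (r : ℕ) (T : Fin r → Ch) (α β : Fin r → ℝ)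
    (φ ψ : Fin r → ℝ → ℝ) (hLB : ∀ w, LB h (T w) (α w) (β w) (φ w) (ψ w))
    (hcov : ∀ z ∈ bd h, ∃ w, 0 < (T w).W.v z ∧ α w ≤ (T w).X z ∧ (T w).X z ≤ β w ∧
      (T w).Y z = φ w ((T w).X z))
    (hB : ∀ w i, cB (T w) (l i) ≠ 0) (s : Fin n → Bool) (i : Fin n) (hZ : IZ.ZonG l h s)
    (hE : IZ.EdgG l h s i) :
    ∃ w, MainP (T w) l (α w) (β w) (φ w) s i ∨ RightP (T w) l (β w) s i ∨
      RightP (T w).mir l (-(α w)) s i := by
  obtain ⟨_, j, z1, hrel, hz1⟩ := hZ
  obtain ⟨z2, hz2, hz2i, hz2s⟩ := hE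
  have hz1bd : z1 ∈ bd h := by
    refine ⟨fun j' => ?_, j, hrel.1⟩
    by_cases hj : j' = j
    · rw [hj, hrel.1]
    · exact (hrel.2 j' hj).le
  obtain ⟨w, hw1, hw2, hw3, hw4⟩ := hcov z1 hz1bd
  refine ⟨w, ?_⟩
  obtain ⟨hαβ, hWpos, -, hlow⟩ := hLB w
  have hSg : Sg l s z1 := hz1
  have hSe : Se l s i z2 := ⟨hz2i, hz2s⟩
  have hW2 := hWpos z2 hz2
  rcases lt_or_ge ((T w).X z2) (β w) with hβ | hβ
  · rcases lt_or_ge (α w) ((T w).X z2) with hα | hα
    · left
      refine ⟨⟨z1, hw1, hw2, hw3, hw4, hSg⟩, z2, hW2, hα, hβ, ?_, hSe⟩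
      obtain ⟨z3, hz3, hX3, hY3⟩ := gb9_down (T w) h hWpos z2 hz2
      have h1 := hlow _ hα.le hβ.le z3 (fun j => (hz3 j).le) (hWpos z3 hz3)
      rw [hX3, sub_self, mul_zero, add_zero] at h1
      exact h1.trans_lt hY3
    · right; right
      obtain ⟨z2', hz2', hSe', hX'⟩ := (edge_move (T w) h l s i hWpos (hB w i) z2 hz2 hSe).2
      have hW2' := hWpos z2' hz2'
      have hlt : -(α w) < (T w).mir.X z2' := by
        rw [mir_X]
        linarith
      have hle : (T w).mir.X z1 ≤ -(α w) := by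
        rw [mir_X]
        linarith
      obtain ⟨z0, h01, h02, h03⟩ := seg_wall (T w).mir l s i (-(α w)) z1 z2' hSg hSe' hw1 hW2' hle hlt
      exact ⟨⟨z0, h01, h02, h03⟩, z2', hW2', hlt, hSe'⟩
  · right; left
    obtain ⟨z2', hz2', hSe', hX'⟩ := (edge_move (T w) h l s i hWpos (hB w i) z2 hz2 hSe).1
    have hW2' := hWpos z2' hz2'
    have hlt : β w < (T w).X z2' := lt_of_le_of_lt hβ hX'
    obtain ⟨z0, h01, h02, h03⟩ := seg_wall (T w) l s i (β w) z1 z2' hSg hSe' hw1 hW2' hw3 hlt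
    exact ⟨⟨z0, h01, h02, h03⟩, z2', hW2', hlt, hSe'⟩

end Pool.Agent.Work.MP_e64a38_co.GG
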