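import Pool.Agent.Work.MP_e64a38_co.GG.GB4
import Pool.Agent.Work.MP_e64a38_co.GG.GB7
import Pool.Agent.Work.MP_e64a38_co.GG.GB8
import Pool.Agent.Work.MP_e64a38_co.GG.GB9
import Pool.Agent.Work.MP_e64a38_co.IZ.Compl

/-!
# The zone of a polygon with windows of bounded flattening depth (size S-M)

`IZ.compl_le` for `l`: `zoneComplexity l h ≤ ∑ s with ZonG l h s, #{i | EdgG l h s i} + (2 n + k)`. Let `l'` be the lines
of `pertw`. `{i | EdgG l h s i} ⊆ {i | EdgG l' h s i}`, and if `ZonG l h s` then by `win_case` (for `l'`)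
`{i | EdgG l' h s i} ⊆ ⋃ w, {i | MainP} ∪ {i | RightP} ∪ {i | RightP mir}` (`Finset.card_biUnion_le`,
`Finset.card_union_le`). Exchange the sums over `s` and `w` (`Finset.sum_comm`): by `main_card` (its hypothesis `hs`
follows from `LB`: take the point `z ∈ poly h` over the second abscissa), `right_card`, `left_card` the sum is at most
`r ((2000 N + 2 D) (n + 1) + 128000 (n + 1))`. `128000 ≤ 4000 N`. `k ≥ 1` (`IZ.polygon_pos`), so `n + 1 ≤ n + k`; `r ≥ 1`
(there is a point of `bd h`: `hP.side`, `k ≥ 1`), so `2 n + k ≤ 2 (n + k) ≤ 100 N r (n + k)`. Total at most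
`(6100 N + 2 D) r (n + k)`.
-/

set_option autoImplicit false

namespace Pool.Agent.Work.MP_e64a38_co.GG

variable {n k : ℕ}

private theorem gb10_arith (n k r N D Z : ℕ) (hN : 32 ≤ N) (hk : 1 ≤ k) (hr : 1 ≤ r)
    (h : Z ≤ r * ((2000 * N + 2 * D) * (n + 1) + 64000 * (n + 1) + 64000 * (n + 1)) +
      (2 * n + k)) : Z ≤ (6100 * N + 2 * D) * r * (n + k) := by
  have h1 : (2000 * N + 2 * D) * (n + 1) + 64000 * (n + 1) + 64000 * (n + 1) ≤
      (6000 * N + 2 * D) * (n + k) := by
    have e1 : (2000 * N + 2 * D) * (n + 1) + 64000 * (n + 1) + 64000 * (n + 1) =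
        (2000 * N + 2 * D + 128000) * (n + 1) := by ring
    rw [e1]
    exact Nat.mul_le_mul (by omega) (by omega)
  have h2 : 2 * n + k ≤ 100 * N * r * (n + k) := by
    have h3 : 2 ≤ 100 * N * r := by
      calc 2 ≤ 100 * N * 1 := by omega
        _ ≤ 100 * N * r := Nat.mul_le_mul_left _ hr
    calc 2 * n + k ≤ 2 * (n + k) := by omega
      _ ≤ 100 * N * r * (n + k) := Nat.mul_le_mul_right _ h3
  calc Z ≤ r * ((2000 * N + 2 * D) * (n + 1) + 64000 * (n + 1) + 64000 * (n + 1)) +
        (2 * n + k) := h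
    _ ≤ r * ((6000 * N + 2 * D) * (n + k)) + 100 * N * r * (n + k) :=
        Nat.add_le_add (Nat.mul_le_mul_left _ h1) h2
    _ = (6100 * N + 2 * D) * r * (n + k) := by ring

theorem win_card (l : Fin n → Ln) (h : Fin k → Ln) (hP : IsPolygon h)
    (hl : Function.Injective (fun i => (l i).pts)) (hm : ∀ i, ((l i).pts ∩ inn h).Nonempty)
    (r : ℕ) (T : Fin r → Ch) (α β : Fin r → ℝ) (φ ψ : Fin r → ℝ → ℝ)
    (hLB : ∀ w, LB h (T w) (α w) (β w) (φ w) (ψ w))
    (hcov : ∀ z ∈ bd h, ∃ w, 0 < (T w).W.v z ∧ α w ≤ (T w).X z ∧ (T w).X z ≤ β w ∧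
      (T w).Y z = φ w ((T w).X z))
    (N : ℕ) (hN : 32 ≤ N) (D : ℕ) (h1 : ∀ w, ¬ DeepB N D (α w) (β w) (ψ w))
    (h2 : ∀ w, ¬ DeepB N D (-(β w)) (-(α w)) (FF.mr (ψ w))) :
    zoneComplexity l h ≤ (6100 * N + 2 * D) * r * (n + k) := by
  classical
  obtain ⟨l', hl', hB, hZ, hE⟩ := pertw l h hl r T
  have hk : 0 < k := IZ.polygon_pos hP
  have hr : 1 ≤ r := by
    obtain ⟨z, hz, -⟩ := hP.side ⟨0, hk⟩
    obtain ⟨w, -⟩ := hcov z ⟨hz.2, ⟨0, hk⟩, hz.1⟩
    exact lt_of_le_of_lt (Nat.zero_le _) w.2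
  refine gb10_arith n k r N D _ hN hk hr ?_
  refine le_trans (IZ.compl_le l h hP hl hm) (Nat.add_le_add_right ?_ _)
  have hpt : ∀ s : Fin n → Bool, s ∈ Finset.univ.filter (fun s : Fin n → Bool => IZ.ZonG l h s) →
      (Finset.univ.filter (fun i : Fin n => IZ.EdgG l h s i)).card ≤
        ∑ w : Fin r, ((Finset.univ.filter
          (fun i => MainP (T w) l' (α w) (β w) (φ w) s i)).card +
          (Finset.univ.filter (fun i => RightP (T w) l' (β w) s i)).card +
          (Finset.univ.filter (fun i => RightP (T w).mir l' (-(α w)) s i)).card) := by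
    intro s hs
    have hs' : IZ.ZonG l h s := (Finset.mem_filter.1 hs).2
    have hsub : Finset.univ.filter (fun i : Fin n => IZ.EdgG l h s i) ⊆
        Finset.univ.biUnion (fun w : Fin r =>
          (Finset.univ.filter (fun i => MainP (T w) l' (α w) (β w) (φ w) s i) ∪
          Finset.univ.filter (fun i => RightP (T w) l' (β w) s i)) ∪
          Finset.univ.filter (fun i => RightP (T w).mir l' (-(α w)) s i)) := by
      intro i hi
      have hi' : IZ.EdgG l h s i := (Finset.mem_filter.1 hi).2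
      obtain ⟨w, hw⟩ := win_case l' h r T α β φ ψ hLB hcov hB s i (hZ s hs') (hE s i hi')
      rw [Finset.mem_biUnion]
      refine ⟨w, Finset.mem_univ _, ?_⟩
      rw [Finset.mem_union, Finset.mem_union, Finset.mem_filter, Finset.mem_filter,
        Finset.mem_filter]
      rcases hw with hw | hw | hw
      · exact Or.inl (Or.inl ⟨Finset.mem_univ _, hw⟩)
      · exact Or.inl (Or.inr ⟨Finset.mem_univ _, hw⟩)
      · exact Or.inr ⟨Finset.mem_univ _, hw⟩
    refine le_trans (Finset.card_le_card hsub) (le_trans Finset.card_biUnion_le ?_)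
    refine Finset.sum_le_sum fun w _ => ?_
    refine le_trans (Finset.card_union_le _ _) (Nat.add_le_add_right ?_ _)
    exact Finset.card_union_le _ _
  refine le_trans (Finset.sum_le_sum hpt) ?_
  refine le_trans (Finset.sum_le_sum_of_subset (Finset.subset_univ _)) ?_
  rw [Finset.sum_comm]
  have hw : ∀ w ∈ (Finset.univ : Finset (Fin r)),
      ∑ s : Fin n → Bool, ((Finset.univ.filter
          (fun i => MainP (T w) l' (α w) (β w) (φ w) s i)).card +
          (Finset.univ.filter (fun i => RightP (T w) l' (β w) s i)).card +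
          (Finset.univ.filter (fun i => RightP (T w).mir l' (-(α w)) s i)).card) ≤
        (2000 * N + 2 * D) * (n + 1) + 64000 * (n + 1) + 64000 * (n + 1) := by
    intro w _
    rw [Finset.sum_add_distrib, Finset.sum_add_distrib]
    obtain ⟨hab, hW, hex, hsup⟩ := hLB w
    have hs : ∀ x z, α w ≤ x → x ≤ β w → α w ≤ z → z ≤ β w →
        φ w x + ψ w x * (z - x) ≤ φ w z := by
      intro x z hx1 hx2 hz1 hz2
      obtain ⟨q, hq, hq1, hq2, hq3⟩ := hex z hz1 hz2
      have := hsup x hx1 hx2 q hq hq1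
      rwa [hq2, hq3] at this
    exact Nat.add_le_add (Nat.add_le_add
      (main_card (T w) l' hl' (hB w) (α w) (β w) (φ w) (ψ w) hab hs N hN D (h1 w) (h2 w))
      (right_card (T w) l' hl' (hB w) (β w))) (left_card (T w) l' hl' (hB w) (α w))
  refine le_trans (Finset.sum_le_sum hw) ?_
  rw [Finset.sum_const, Finset.card_univ, Fintype.card_fin, smul_eq_mul]

end Pool.Agent.Work.MP_e64a38_co.GG
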