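import Pool.Agent.Work.MP_e64a38_co.GG.Defs
import Pool.Agent.Work.MP_e64a38_co.FF.PDefs

/-!
# Moving the lines away from the vertical directions (size M-L)

Write `λ_w(a, b, c) = det3 U (a, b, -c) W` for the chart `w`, a linear form in `(a, b, c)`; `cB T_w l ≠ 0` iff
`λ_w(l.a, l.b, l.c) ≠ 0`. It is not the zero form, since `det3 U V W ≠ 0` is its value at `(V.a, V.b, - V.c)`.
(1) There is `η = (η1, η2, η3)` with `λ_w η ≠ 0` for all `w`: put `η = (1, τ, τ ^ 2)`; `λ_w η` is a polynomial in `τ` of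
degree at most 2 with coefficients `λ_w(1,0,0)`, `λ_w(0,1,0)`, `λ_w(0,0,1)`, not all zero, so it has finitely many
zeros; `r` such polynomials have finitely many zeros, choose another `τ` (`Polynomial` roots, or
`Set.Finite` and `Set.Infinite ℝ`; or a product of nonzero polynomials is nonzero).
(2) Let `l' i` have the coefficients `(l i) + t η`. For all small `t > 0` (`∀ᶠ t in 𝓝[>] 0`; finitely many conditions,
`Filter.eventually_all`, as in `FF/PPert.lean`):
(a) `(a, b)` of `l' i` is not zero (continuity). To have a total function define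
`mv t i = if h : (a + t η1 ≠ 0 ∨ b + t η2 ≠ 0) then ⟨_, _, _, h⟩ else l i`.
(b) `cB T_w (l' i) ≠ 0`: `λ_w(l i) + t λ_w(η)` vanishes for at most one `t`.
(c) the point sets of `l' i`, `l' j`, `i ≠ j`, are different: two lines have the same points iff the three `2 × 2`
minors of their coefficients vanish (see `pp_par` in `FF/PPert.lean`); one of the minors is not zero for `l i`, `l j`, so
it is not zero for `l' i`, `l' j` (continuity in `t`).
(d) `ZonG`: the two witnesses stay, because their conditions are strict.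
(e) `EdgG l h s i` with witness `p`: let `d = ((l i).a, (l i).b)` and `p_+ = p + ε d`, `p_- = p - ε d` with `ε > 0` so small
that `p_+`, `p_-` are in `inn h` and all other signs at them are those of `s`; `(l i).ev p_+ > 0 > (l i).ev p_-`. For
small `t` all these strict inequalities hold for `l'` too. `(l' i).ev` is affine, so it vanishes at a point of the
segment from `p_-` to `p_+`; this point is in `inn h` and has the other signs of `s`, since all the conditions are
convex. (`EdgG` for `l'`.)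
-/

set_option autoImplicit false

namespace Pool.Agent.Work.MP_e64a38_co.GG

variable {n k : ℕ}

/-- the coefficient of the second coordinate, up to the determinant -/
private def w4_lm (T : Ch) (a b c : ℝ) : ℝ := det3 T.U ⟨a, b, -c⟩ T.W

private theorem w4_lin (T : Ch) (a b c : ℝ) :
    w4_lm T a b c = a * w4_lm T 1 0 0 + b * w4_lm T 0 1 0 + c * w4_lm T 0 0 1 := by
  unfold w4_lm det3
  simp only
  ring

private theorem w4_nz (T : Ch) :
    ¬ (w4_lm T 1 0 0 = 0 ∧ w4_lm T 0 1 0 = 0 ∧ w4_lm T 0 0 1 = 0) := by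
  rintro ⟨h1, h2, h3⟩
  apply T.det
  have h4 : det3 T.U T.V T.W = w4_lm T T.V.a T.V.b (-T.V.c) := by
    unfold w4_lm det3
    simp only
    ring
  rw [h4, w4_lin, h1, h2, h3]
  ring

open Polynomial in
private theorem w4_fin (T : Ch) : {τ : ℝ | w4_lm T 1 τ (τ ^ 2) = 0}.Finite := by
  have hP : (C (w4_lm T 1 0 0) + C (w4_lm T 0 1 0) * X + C (w4_lm T 0 0 1) * X ^ 2 : ℝ[X]) ≠ 0 := by
    intro h
    apply w4_nz T
    have c0 := congrArg (fun q : ℝ[X] => q.coeff 0) h
    have c1 := congrArg (fun q : ℝ[X] => q.coeff 1) h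
    have c2 := congrArg (fun q : ℝ[X] => q.coeff 2) h
    simp [coeff_X, coeff_C] at c0 c1 c2
    exact ⟨c0, c1, c2⟩
  refine (finite_setOfPred_isRoot hP).subset ?_
  intro τ hτ
  change w4_lm T 1 τ (τ ^ 2) = 0 at hτ
  rw [w4_lin] at hτ
  change eval τ _ = 0
  simp only [eval_add, eval_mul, eval_C, eval_X, eval_pow]
  linarith

private theorem w4_tau (r : ℕ) (T : Fin r → Ch) : ∃ τ : ℝ, ∀ w, w4_lm (T w) 1 τ (τ ^ 2) ≠ 0 := by
  obtain ⟨τ, hτ⟩ := (Set.finite_iUnion fun w => w4_fin (T w)).exists_notMem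
  refine ⟨τ, fun w h => hτ ?_⟩
  rw [Set.mem_iUnion]
  exact ⟨w, h⟩

private theorem w4_cB (T : Ch) (m : Ln) : cB T m ≠ 0 ↔ w4_lm T m.a m.b m.c ≠ 0 := by
  unfold cB fo w4_lm
  rw [Ne, div_eq_zero_iff, not_or]
  exact ⟨fun h => h.1, fun h => ⟨h, T.det⟩⟩

open Classical in
/-- the moved lines -/
private noncomputable def w4_mv (l : Fin n → Ln) (τ t : ℝ) (i : Fin n) : Ln :=
  if h : (l i).a + t ≠ 0 then ⟨(l i).a + t, (l i).b + t * τ, (l i).c + t * τ ^ 2, Or.inl h⟩ else l i

private theorem w4_of (l : Fin n → Ln) (τ t : ℝ) (i : Fin n) (h : (l i).a + t ≠ 0) :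
    w4_mv l τ t i = ⟨(l i).a + t, (l i).b + t * τ, (l i).c + t * τ ^ 2, Or.inl h⟩ := dif_pos h

private theorem w4_ev (l : Fin n → Ln) (τ t : ℝ) (i : Fin n) (h : (l i).a + t ≠ 0) (p : ℝ × ℝ) :
    (w4_mv l τ t i).ev p = (l i).ev p + t * (p.1 + τ * p.2 - τ ^ 2) := by
  rw [w4_of l τ t i h]
  unfold Ln.ev
  simp only
  ring

private theorem w4_N (l : Ln) : 0 < l.a ^ 2 + l.b ^ 2 := by
  rcases l.h with h | h
  · have := pow_pos (abs_pos.mpr h) 2
    rw [sq_abs] at this
    nlinarith [sq_nonneg l.b]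
  · have := pow_pos (abs_pos.mpr h) 2
    rw [sq_abs] at this
    nlinarith [sq_nonneg l.a]

private theorem w4_par {l l' : Ln} (hp : l.pts = l'.pts) :
    l.a * l'.b = l'.a * l.b ∧ l.a * l'.c = l'.a * l.c ∧ l.b * l'.c = l'.b * l.c := by
  have hN := w4_N l
  have h1 : ((l.c * l.a / (l.a ^ 2 + l.b ^ 2), l.c * l.b / (l.a ^ 2 + l.b ^ 2)) : ℝ × ℝ) ∈ l.pts := by
    show l.a * (l.c * l.a / (l.a ^ 2 + l.b ^ 2)) + l.b * (l.c * l.b / (l.a ^ 2 + l.b ^ 2)) - l.c = 0
    field_simp
    ring
  have h2 : ((l.c * l.a / (l.a ^ 2 + l.b ^ 2) + l.b, l.c * l.b / (l.a ^ 2 + l.b ^ 2) - l.a) :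
      ℝ × ℝ) ∈ l.pts := by
    show l.a * (l.c * l.a / (l.a ^ 2 + l.b ^ 2) + l.b) +
      l.b * (l.c * l.b / (l.a ^ 2 + l.b ^ 2) - l.a) - l.c = 0
    field_simp
    ring
  rw [hp] at h1 h2
  have h3 : l'.a * (l.c * l.a / (l.a ^ 2 + l.b ^ 2)) + l'.b * (l.c * l.b / (l.a ^ 2 + l.b ^ 2)) -
    l'.c = 0 := h1
  have h4 : l'.a * (l.c * l.a / (l.a ^ 2 + l.b ^ 2) + l.b) +
      l'.b * (l.c * l.b / (l.a ^ 2 + l.b ^ 2) - l.a) - l'.c = 0 := h2
  have h5 : l.a * l'.b = l'.a * l.b := by linarith
  have h6 : l'.a * (l.c * l.a) + l'.b * (l.c * l.b) = l'.c * (l.a ^ 2 + l.b ^ 2) := by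
    have h7 : l'.a * (l.c * l.a / (l.a ^ 2 + l.b ^ 2)) +
        l'.b * (l.c * l.b / (l.a ^ 2 + l.b ^ 2)) =
        (l'.a * (l.c * l.a) + l'.b * (l.c * l.b)) / (l.a ^ 2 + l.b ^ 2) := by ring
    rw [h7, sub_eq_zero, div_eq_iff hN.ne'] at h3
    exact h3
  refine ⟨h5, ?_, ?_⟩
  · have : (l.a ^ 2 + l.b ^ 2) * (l.a * l'.c - l'.a * l.c) = 0 := by
      linear_combination (-l.a) * h6 + l.b * l.c * h5
    rcases mul_eq_zero.mp this with h | h
    · exact absurd h hN.ne'
    · linarith
  · have : (l.a ^ 2 + l.b ^ 2) * (l.b * l'.c - l'.b * l.c) = 0 := by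
      linear_combination (-l.b) * h6 - l.a * l.c * h5
    rcases mul_eq_zero.mp this with h | h
    · exact absurd h hN.ne'
    · linarith

private theorem w4_pts {l l' : Ln} (h1 : l.a * l'.b = l'.a * l.b) (h2 : l.a * l'.c = l'.a * l.c)
    (h3 : l.b * l'.c = l'.b * l.c) : l.pts = l'.pts := by
  ext p
  change l.ev p = 0 ↔ l'.ev p = 0
  by_cases ha : l.a = 0
  · have hb : l.b ≠ 0 := by
      rcases l.h with h | h
      · exact absurd ha h
      · exact h
    have hb' : l'.b ≠ 0 := by
      intro h0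
      have : l'.a = 0 := by
        rw [h0, mul_zero] at h1
        exact (mul_eq_zero.mp h1.symm).resolve_right hb
      rcases l'.h with h | h
      · exact h this
      · exact h h0
    have key : l.b * l'.ev p = l'.b * l.ev p := by
      unfold Ln.ev
      linear_combination (-p.1) * h1 - h3
    constructor
    · intro h
      rw [h, mul_zero] at key
      exact (mul_eq_zero.mp key).resolve_left hb
    · intro h
      rw [h, mul_zero] at key
      exact (mul_eq_zero.mp key.symm).resolve_left hb'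
  · have ha' : l'.a ≠ 0 := by
      intro h0
      have : l'.b = 0 := by
        rw [h0, zero_mul] at h1
        exact (mul_eq_zero.mp h1).resolve_left ha
      rcases l'.h with h | h
      · exact h h0
      · exact h this
    have key : l.a * l'.ev p = l'.a * l.ev p := by
      unfold Ln.ev
      linear_combination p.2 * h1 - h2
    constructor
    · intro h
      rw [h, mul_zero] at key
      exact (mul_eq_zero.mp key).resolve_left ha
    · intro h
      rw [h, mul_zero] at key
      exact (mul_eq_zero.mp key.symm).resolve_left ha'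

private theorem w4_ne (t0 : ℝ) : ∀ᶠ t : ℝ in nhdsWithin 0 (Set.Ioi 0), t ≠ t0 := by
  rcases le_or_gt t0 0 with h | h
  · filter_upwards [self_mem_nhdsWithin] with t ht
    have ht' : (0 : ℝ) < t := ht
    exact (lt_of_le_of_lt h ht').ne'
  · filter_upwards [Ioo_mem_nhdsGT h] with t ht
    exact ht.2.ne

/-- a continuous function which is positive at `0` -/
private theorem w4_pos (g : ℝ → ℝ) (hg : Continuous g) (h : 0 < g 0) :
    ∀ᶠ t : ℝ in nhdsWithin 0 (Set.Ioi 0), 0 < g t := by
  apply nhdsWithin_le_nhds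
  exact continuousAt_const.eventually_lt hg.continuousAt h

private theorem w4_nez (g : ℝ → ℝ) (hg : Continuous g) (h : g 0 ≠ 0) :
    ∀ᶠ t : ℝ in nhdsWithin 0 (Set.Ioi 0), g t ≠ 0 := by
  apply nhdsWithin_le_nhds
  exact hg.continuousAt.eventually_ne h

private theorem w4_cell (l : Fin n → Ln) (τ : ℝ) (p : ℝ × ℝ) (s : Fin n → Bool) (i : Fin n)
    (hp : 0 < sb (s i) * (l i).ev p) :
    ∀ᶠ t : ℝ in nhdsWithin 0 (Set.Ioi 0), 0 < sb (s i) * (w4_mv l τ t i).ev p := by
  filter_upwards [w4_pos (fun t => sb (s i) * ((l i).ev p + t * (p.1 + τ * p.2 - τ ^ 2)))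
    (by fun_prop) (by simpa using hp), w4_ne (-(l i).a)] with t h1 h2
  rw [w4_ev l τ t i (fun h => h2 (by linarith))]
  exact h1

/-- the value of an affine function at a convex combination -/
private theorem w4_cvx (m : Ln) (x y : ℝ × ℝ) (A B : ℝ) (h : A + B ≠ 0) :
    (A + B) * m.ev ((B * x.1 + A * y.1) / (A + B), (B * x.2 + A * y.2) / (A + B)) =
      B * m.ev x + A * m.ev y := by
  unfold Ln.ev
  simp only
  field_simp
  ring

theorem pertw (l : Fin n → Ln) (h : Fin k → Ln) (hl : Function.Injective (fun i => (l i).pts))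
    (r : ℕ) (T : Fin r → Ch) :
    ∃ l' : Fin n → Ln, Function.Injective (fun i => (l' i).pts) ∧
      (∀ w i, cB (T w) (l' i) ≠ 0) ∧ (∀ s, IZ.ZonG l h s → IZ.ZonG l' h s) ∧
      ∀ s i, IZ.EdgG l h s i → IZ.EdgG l' h s i := by
  classical
  obtain ⟨τ, hτ⟩ := w4_tau r T
  have e0 : ∀ᶠ t : ℝ in nhdsWithin 0 (Set.Ioi 0), ∀ i, (l i).a + t ≠ 0 := by
    rw [Filter.eventually_all]
    intro i
    filter_upwards [w4_ne (-(l i).a)] with t ht h
    exact ht (by linarith)
  have e1 : ∀ᶠ t : ℝ in nhdsWithin 0 (Set.Ioi 0), ∀ i j, i ≠ j →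
      (w4_mv l τ t i).pts ≠ (w4_mv l τ t j).pts := by
    rw [Filter.eventually_all]
    intro i
    rw [Filter.eventually_all]
    intro j
    by_cases hij : i = j
    · exact Filter.Eventually.of_forall fun t h => absurd hij h
    have hne : (l i).pts ≠ (l j).pts := fun h => hij (hl h)
    have hm : ¬ ((l i).a * (l j).b = (l j).a * (l i).b ∧ (l i).a * (l j).c = (l j).a * (l i).c ∧
        (l i).b * (l j).c = (l j).b * (l i).c) := fun h => hne (w4_pts h.1 h.2.1 h.2.2)
    have hev : ∀ᶠ t : ℝ in nhdsWithin 0 (Set.Ioi 0),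
        ¬ (((l i).a + t) * ((l j).b + t * τ) = ((l j).a + t) * ((l i).b + t * τ) ∧
          ((l i).a + t) * ((l j).c + t * τ ^ 2) = ((l j).a + t) * ((l i).c + t * τ ^ 2) ∧
          ((l i).b + t * τ) * ((l j).c + t * τ ^ 2) =
            ((l j).b + t * τ) * ((l i).c + t * τ ^ 2)) := by
      by_cases h1 : (l i).a * (l j).b = (l j).a * (l i).b
      · by_cases h2 : (l i).a * (l j).c = (l j).a * (l i).c
        · have h3 : (l i).b * (l j).c ≠ (l j).b * (l i).c := fun h3 => hm ⟨h1, h2, h3⟩
          filter_upwards [w4_nez (fun t => ((l i).b + t * τ) * ((l j).c + t * τ ^ 2) -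
            ((l j).b + t * τ) * ((l i).c + t * τ ^ 2)) (by fun_prop)
            (by simpa [sub_eq_zero] using h3)] with t ht h
          exact ht (sub_eq_zero.mpr h.2.2)
        · filter_upwards [w4_nez (fun t => ((l i).a + t) * ((l j).c + t * τ ^ 2) -
            ((l j).a + t) * ((l i).c + t * τ ^ 2)) (by fun_prop)
            (by simpa [sub_eq_zero] using h2)] with t ht h
          exact ht (sub_eq_zero.mpr h.2.1)
      · filter_upwards [w4_nez (fun t => ((l i).a + t) * ((l j).b + t * τ) -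
          ((l j).a + t) * ((l i).b + t * τ)) (by fun_prop)
          (by simpa [sub_eq_zero] using h1)] with t ht h
        exact ht (sub_eq_zero.mpr h.1)
    filter_upwards [hev, e0] with t ht h0 _ heq
    apply ht
    have := w4_par heq
    rw [w4_of l τ t i (h0 i), w4_of l τ t j (h0 j)] at this
    exact this
  have e2 : ∀ᶠ t : ℝ in nhdsWithin 0 (Set.Ioi 0), ∀ w i, cB (T w) (w4_mv l τ t i) ≠ 0 := by
    rw [Filter.eventually_all]
    intro w
    rw [Filter.eventually_all]
    intro i
    filter_upwards [w4_ne (-(w4_lm (T w) (l i).a (l i).b (l i).c) / w4_lm (T w) 1 τ (τ ^ 2)),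
      e0] with t ht h0
    rw [w4_cB, w4_of l τ t i (h0 i)]
    intro h
    apply ht
    rw [eq_div_iff (hτ w)]
    have h1 := w4_lin (T w) ((l i).a + t) ((l i).b + t * τ) ((l i).c + t * τ ^ 2)
    have h2 := w4_lin (T w) (l i).a (l i).b (l i).c
    have h3 := w4_lin (T w) 1 τ (τ ^ 2)
    change w4_lm (T w) ((l i).a + t) ((l i).b + t * τ) ((l i).c + t * τ ^ 2) = 0 at h
    rw [h2, h3]
    rw [h1] at h
    linear_combination h
  have e4 : ∀ᶠ t : ℝ in nhdsWithin 0 (Set.Ioi 0), ∀ s, IZ.ZonG l h s →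
      IZ.ZonG (w4_mv l τ t) h s := by
    rw [Filter.eventually_all]
    intro s
    by_cases hz : IZ.ZonG l h s
    · obtain ⟨⟨p, hp1, hp2⟩, j, T0, hT1, hT2⟩ := hz
      have h1 : ∀ᶠ t : ℝ in nhdsWithin 0 (Set.Ioi 0),
          ∀ i, 0 < sb (s i) * (w4_mv l τ t i).ev p := by
        rw [Filter.eventually_all]
        exact fun i => w4_cell l τ p s i (hp2 i)
      have h2 : ∀ᶠ t : ℝ in nhdsWithin 0 (Set.Ioi 0),
          ∀ i, 0 < sb (s i) * (w4_mv l τ t i).ev T0 := by
        rw [Filter.eventually_all]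
        exact fun i => w4_cell l τ T0 s i (hT2 i)
      filter_upwards [h1, h2] with t h1 h2 _
      exact ⟨⟨p, hp1, h1⟩, j, T0, hT1, h2⟩
    · exact Filter.Eventually.of_forall fun t h => absurd h hz
  have e5 : ∀ᶠ t : ℝ in nhdsWithin 0 (Set.Ioi 0), ∀ s i, IZ.EdgG l h s i →
      IZ.EdgG (w4_mv l τ t) h s i := by
    rw [Filter.eventually_all]
    intro s
    rw [Filter.eventually_all]
    intro i
    by_cases he : IZ.EdgG l h s i
    · obtain ⟨p, hp1, hp2, hp3⟩ := he
      have hN := w4_N (l i)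
      -- the two auxiliary points
      have hx : ∀ (σ : ℝ), ∀ᶠ ε : ℝ in nhdsWithin 0 (Set.Ioi 0),
          (∀ j, (h j).ev (p.1 + σ * ε * (l i).a, p.2 + σ * ε * (l i).b) < 0) ∧
          ∀ j, j ≠ i → 0 < sb (s j) *
            (l j).ev (p.1 + σ * ε * (l i).a, p.2 + σ * ε * (l i).b) := by
        intro σ
        refine Filter.Eventually.and ?_ ?_
        · rw [Filter.eventually_all]
          intro j
          have h1 := hp1 j
          filter_upwards [w4_pos (fun ε => -(h j).ev (p.1 + σ * ε * (l i).a,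
            p.2 + σ * ε * (l i).b)) (by unfold Ln.ev; fun_prop) (by
              simp only [mul_zero, zero_mul, add_zero]
              linarith)] with ε hε
          linarith
        · rw [Filter.eventually_all]
          intro j
          by_cases hj : j = i
          · exact Filter.Eventually.of_forall fun t h => absurd hj h
          · filter_upwards [w4_pos (fun ε => sb (s j) * (l j).ev (p.1 + σ * ε * (l i).a,
              p.2 + σ * ε * (l i).b)) (by unfold Ln.ev; fun_prop) (by
                simp only [mul_zero, zero_mul, add_zero]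
                exact hp3 j hj)] with ε hε _
            exact hε
      obtain ⟨ε, ⟨⟨ha1, ha2⟩, hb1, hb2⟩, hε⟩ :=
        (((hx 1).and (hx (-1))).and (self_mem_nhdsWithin : ∀ᶠ ε : ℝ in nhdsWithin 0 (Set.Ioi 0),
          ε ∈ Set.Ioi (0 : ℝ))).exists
      have hε' : (0 : ℝ) < ε := hε
      generalize hxa : ((p.1 + 1 * ε * (l i).a, p.2 + 1 * ε * (l i).b) : ℝ × ℝ) = xa at ha1 ha2
      generalize hxb : ((p.1 + -1 * ε * (l i).a, p.2 + -1 * ε * (l i).b) : ℝ × ℝ) = xb at hb1 hb2
      have hA : (l i).ev xa = ε * ((l i).a ^ 2 + (l i).b ^ 2) := by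
        rw [← hxa]
        unfold Ln.ev at hp2 ⊢
        simp only
        linear_combination hp2
      have hB : (l i).ev xb = -(ε * ((l i).a ^ 2 + (l i).b ^ 2)) := by
        rw [← hxb]
        unfold Ln.ev at hp2 ⊢
        simp only
        linear_combination hp2
      have hpos : 0 < ε * ((l i).a ^ 2 + (l i).b ^ 2) := mul_pos hε' hN
      have f1 : ∀ᶠ t : ℝ in nhdsWithin 0 (Set.Ioi 0), 0 < (w4_mv l τ t i).ev xa := by
        filter_upwards [w4_pos (fun t => (l i).ev xa + t * (xa.1 + τ * xa.2 - τ ^ 2))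
          (by fun_prop) (by
            simp only [zero_mul, add_zero]
            rw [hA]
            exact hpos), e0] with t h1 h0
        rw [w4_ev l τ t i (h0 i)]
        exact h1
      have f2 : ∀ᶠ t : ℝ in nhdsWithin 0 (Set.Ioi 0), (w4_mv l τ t i).ev xb < 0 := by
        filter_upwards [w4_pos (fun t => -((l i).ev xb + t * (xb.1 + τ * xb.2 - τ ^ 2)))
          (by fun_prop) (by
            simp only [zero_mul, add_zero]
            rw [hB, neg_neg]
            exact hpos), e0] with t h1 h0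
        rw [w4_ev l τ t i (h0 i)]
        linarith
      have f3 : ∀ᶠ t : ℝ in nhdsWithin 0 (Set.Ioi 0), ∀ j, j ≠ i →
          0 < sb (s j) * (w4_mv l τ t j).ev xa := by
        rw [Filter.eventually_all]
        intro j
        by_cases hj : j = i
        · exact Filter.Eventually.of_forall fun t h => absurd hj h
        · filter_upwards [w4_cell l τ xa s j (ha2 j hj)] with t ht _
          exact ht
      have f4 : ∀ᶠ t : ℝ in nhdsWithin 0 (Set.Ioi 0), ∀ j, j ≠ i →
          0 < sb (s j) * (w4_mv l τ t j).ev xb := by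
        rw [Filter.eventually_all]
        intro j
        by_cases hj : j = i
        · exact Filter.Eventually.of_forall fun t h => absurd hj h
        · filter_upwards [w4_cell l τ xb s j (hb2 j hj)] with t ht _
          exact ht
      filter_upwards [f1, f2, f3, f4] with t g1 g2 g3 g4 _
      have hB' : 0 < -(w4_mv l τ t i).ev xb := by linarith
      have hAB : 0 < (w4_mv l τ t i).ev xa + -(w4_mv l τ t i).ev xb := add_pos g1 hB'
      have hc := fun m : Ln => w4_cvx m xa xb ((w4_mv l τ t i).ev xa)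
        (-(w4_mv l τ t i).ev xb) hAB.ne'
      refine ⟨((-(w4_mv l τ t i).ev xb * xa.1 + (w4_mv l τ t i).ev xa * xb.1) /
          ((w4_mv l τ t i).ev xa + -(w4_mv l τ t i).ev xb),
          (-(w4_mv l τ t i).ev xb * xa.2 + (w4_mv l τ t i).ev xa * xb.2) /
          ((w4_mv l τ t i).ev xa + -(w4_mv l τ t i).ev xb)), fun j => ?_, ?_, fun j hj => ?_⟩
      · have h1 := hc (h j)
        by_contra h2
        rw [not_lt] at h2
        have h3 := mul_nonneg hAB.le h2
        rw [h1] at h3
        have h4 := mul_neg_of_pos_of_neg hB' (ha1 j)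
        have h5 := mul_neg_of_pos_of_neg g1 (hb1 j)
        linarith
      · have h1 := hc (w4_mv l τ t i)
        have h2 : -(w4_mv l τ t i).ev xb * (w4_mv l τ t i).ev xa +
          (w4_mv l τ t i).ev xa * (w4_mv l τ t i).ev xb = 0 := by ring
        rw [h2] at h1
        exact (mul_eq_zero.mp h1).resolve_left hAB.ne'
      · have h1 := hc (w4_mv l τ t j)
        have h4 := mul_pos hB' (g3 j hj)
        have h5 := mul_pos g1 (g4 j hj)
        by_contra h2
        rw [not_lt] at h2
        have h3 := mul_nonpos_of_nonneg_of_nonpos hAB.le h2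
        have h6 : ((w4_mv l τ t i).ev xa + -(w4_mv l τ t i).ev xb) * (sb (s j) *
            (w4_mv l τ t j).ev ((-(w4_mv l τ t i).ev xb * xa.1 + (w4_mv l τ t i).ev xa * xb.1) /
              ((w4_mv l τ t i).ev xa + -(w4_mv l τ t i).ev xb),
              (-(w4_mv l τ t i).ev xb * xa.2 + (w4_mv l τ t i).ev xa * xb.2) /
              ((w4_mv l τ t i).ev xa + -(w4_mv l τ t i).ev xb))) =
            -(w4_mv l τ t i).ev xb * (sb (s j) * (w4_mv l τ t j).ev xa) +
            (w4_mv l τ t i).ev xa * (sb (s j) * (w4_mv l τ t j).ev xb) := by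
          linear_combination sb (s j) * h1
        linarith
    · exact Filter.Eventually.of_forall fun t h => absurd h he
  obtain ⟨t, ⟨⟨h1, h2⟩, h4⟩, h5⟩ := (((e1.and e2).and e4).and e5).exists
  refine ⟨w4_mv l τ t, ?_, h2, h4, h5⟩
  intro i j hij
  by_contra hne
  exact h1 i j hne hij

end Pool.Agent.Work.MP_e64a38_co.GG
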