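import Pool.Agent.Work.MP_e64a38_co.GG.GB2

/-!
# Moving along a line, and crossing a wall (size M)

`edge_move`: the point `z` moves along the line by a small amount. `seg_wall`: an affine function on a segment.
-/

set_option autoImplicit false

namespace Pool.Agent.Work.MP_e64a38_co.GG

variable {n k : ℕ}

private noncomputable def zt (L : Ln) (z : ℝ × ℝ) (t : ℝ) : ℝ × ℝ := (z.1 + t * L.b, z.2 - t * L.a)

private theorem zt_ev (L m : Ln) (z : ℝ × ℝ) (t : ℝ) :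
    m.ev (zt L z t) = m.ev z + t * (m.a * L.b - m.b * L.a) := by
  unfold Ln.ev zt
  ring

private theorem zt_v (L : Ln) (g : Fm) (z : ℝ × ℝ) (t : ℝ) :
    g.v (zt L z t) = g.v z + t * (g.a * L.b - g.b * L.a) := by
  unfold Fm.v zt
  ring

private theorem zt_zero (L : Ln) (z : ℝ × ℝ) : zt L z 0 = z := by
  unfold zt
  simp

private theorem gb_pos (L m : Ln) (z : ℝ × ℝ) (c : ℝ) (h : 0 < c * m.ev z) :
    ∀ᶠ t : ℝ in nhds 0, 0 < c * m.ev (zt L z t) := by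
  have h1 : ContinuousAt (fun t : ℝ => c * m.ev (zt L z t)) 0 := by
    have h2 : (fun t : ℝ => c * m.ev (zt L z t)) =
        fun t : ℝ => c * (m.ev z + t * (m.a * L.b - m.b * L.a)) := by
      funext t
      rw [zt_ev]
    rw [h2]
    fun_prop
  have h3 : 0 < (fun t : ℝ => c * m.ev (zt L z t)) 0 := by
    show 0 < c * m.ev (zt L z 0)
    rw [zt_zero]
    exact h
  exact h1.eventually_const_lt h3

private theorem gb_near (h : Fin k → Ln) (l : Fin n → Ln) (s : Fin n → Bool) (i : Fin n) (z : ℝ × ℝ)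
    (hz : z ∈ inn h) (hE : Se l s i z) :
    ∃ ε > 0, ∀ t : ℝ, |t| < ε → zt (l i) z t ∈ inn h ∧ Se l s i (zt (l i) z t) := by
  have h1 : ∀ᶠ t : ℝ in nhds 0, ∀ j, 0 < (-1) * (h j).ev (zt (l i) z t) := by
    refine Filter.eventually_all.2 fun j => gb_pos _ _ _ _ ?_
    have h2 : (h j).ev z < 0 := hz j
    linarith
  have h3 : ∀ᶠ t : ℝ in nhds 0, ∀ j, j ≠ i → 0 < sb (s j) * (l j).ev (zt (l i) z t) := by
    refine Filter.eventually_all.2 fun j => ?_
    by_cases e : j = i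
    · exact Filter.Eventually.of_forall fun t h => absurd e h
    · filter_upwards [gb_pos (l i) (l j) z _ (hE.2 j e)] with t ht _
      exact ht
  obtain ⟨ε, hε, h4⟩ := Metric.eventually_nhds_iff.1 (h1.and h3)
  refine ⟨ε, hε, fun t ht => ?_⟩
  have h5 := h4 (y := t) (by rw [Real.dist_eq, sub_zero]; exact ht)
  refine ⟨fun j => ?_, ?_, h5.2⟩
  · have h6 := h5.1 j
    linarith
  · rw [zt_ev, hE.1]
    ring

private theorem gb_ne (T : Ch) (L : Ln) (z : ℝ × ℝ) (hB : cB T L ≠ 0) (h0 : L.ev z = 0)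
    (hW : 0 < T.W.v z) :
    (T.U.a * L.b - T.U.b * L.a) * T.W.v z - T.U.v z * (T.W.a * L.b - T.W.b * L.a) ≠ 0 := by
  intro hD
  have e1 := ev_co T L z
  have e2 := ev_co T L (zt L z 1)
  rw [zt_ev, zt_v, zt_v, zt_v, h0] at e2
  rw [h0] at e1
  have e3 : cB T L * (T.V.v z * (T.W.a * L.b - T.W.b * L.a) -
      (T.V.a * L.b - T.V.b * L.a) * T.W.v z) = 0 := by
    linear_combination -(T.W.v z + (T.W.a * L.b - T.W.b * L.a)) * e1 + T.W.v z * e2 + cA T L * hD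
  have e4 : T.V.v z * (T.W.a * L.b - T.W.b * L.a) -
      (T.V.a * L.b - T.V.b * L.a) * T.W.v z = 0 := by
    rcases mul_eq_zero.1 e3 with h | h
    · exact absurd h hB
    · exact h
  have hdet := T.det
  have a1 : T.U.a * (T.W.v z * L.b - (T.W.a * L.b - T.W.b * L.a) * z.1) +
      T.U.b * (-(T.W.v z * L.a) - (T.W.a * L.b - T.W.b * L.a) * z.2) +
      T.U.c * (-(T.W.a * L.b - T.W.b * L.a)) = 0 := by
    have hu : T.U.v z = T.U.a * z.1 + T.U.b * z.2 + T.U.c := rfl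
    rw [hu] at hD
    linear_combination hD
  have a2 : T.V.a * (T.W.v z * L.b - (T.W.a * L.b - T.W.b * L.a) * z.1) +
      T.V.b * (-(T.W.v z * L.a) - (T.W.a * L.b - T.W.b * L.a) * z.2) +
      T.V.c * (-(T.W.a * L.b - T.W.b * L.a)) = 0 := by
    have hu : T.V.v z = T.V.a * z.1 + T.V.b * z.2 + T.V.c := rfl
    rw [hu] at e4
    linear_combination -e4
  have a3 : T.W.a * (T.W.v z * L.b - (T.W.a * L.b - T.W.b * L.a) * z.1) +
      T.W.b * (-(T.W.v z * L.a) - (T.W.a * L.b - T.W.b * L.a) * z.2) +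
      T.W.c * (-(T.W.a * L.b - T.W.b * L.a)) = 0 := by
    have hu : T.W.v z = T.W.a * z.1 + T.W.b * z.2 + T.W.c := rfl
    rw [hu]
    ring
  have b3 : det3 T.U T.V T.W * (-(T.W.a * L.b - T.W.b * L.a)) = 0 := by
    unfold det3
    linear_combination (T.V.a * T.W.b - T.V.b * T.W.a) * a1 -
      (T.U.a * T.W.b - T.U.b * T.W.a) * a2 + (T.U.a * T.V.b - T.U.b * T.V.a) * a3
  have b1 : det3 T.U T.V T.W * (T.W.v z * L.b - (T.W.a * L.b - T.W.b * L.a) * z.1) = 0 := by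
    unfold det3
    linear_combination (T.V.b * T.W.c - T.V.c * T.W.b) * a1 -
      (T.U.b * T.W.c - T.U.c * T.W.b) * a2 + (T.U.b * T.V.c - T.U.c * T.V.b) * a3
  have b2 : det3 T.U T.V T.W * (-(T.W.v z * L.a) - (T.W.a * L.b - T.W.b * L.a) * z.2) = 0 := by
    unfold det3
    linear_combination -(T.V.a * T.W.c - T.V.c * T.W.a) * a1 +
      (T.U.a * T.W.c - T.U.c * T.W.a) * a2 - (T.U.a * T.V.c - T.U.c * T.V.a) * a3
  have c3 := (mul_eq_zero.1 b3).resolve_left hdet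
  have c1 := (mul_eq_zero.1 b1).resolve_left hdet
  have c2 := (mul_eq_zero.1 b2).resolve_left hdet
  have hw : T.W.a * L.b - T.W.b * L.a = 0 := by linarith
  rw [hw, zero_mul, sub_zero] at c1 c2
  rcases L.h with h | h
  · exact h ((mul_eq_zero.1 (neg_eq_zero.1 c2)).resolve_left hW.ne')
  · exact h ((mul_eq_zero.1 c1).resolve_left hW.ne')

private theorem gb_X (T : Ch) (L : Ln) (z : ℝ × ℝ) (t : ℝ) (hW : 0 < T.W.v z)
    (hW' : 0 < T.W.v (zt L z t))
    (ht : 0 < t * ((T.U.a * L.b - T.U.b * L.a) * T.W.v z -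
      T.U.v z * (T.W.a * L.b - T.W.b * L.a))) : T.X z < T.X (zt L z t) := by
  unfold Ch.X
  rw [div_lt_div_iff₀ hW hW', zt_v, zt_v]
  linarith

private theorem gb_X' (T : Ch) (L : Ln) (z : ℝ × ℝ) (t : ℝ) (hW : 0 < T.W.v z)
    (hW' : 0 < T.W.v (zt L z t))
    (ht : t * ((T.U.a * L.b - T.U.b * L.a) * T.W.v z -
      T.U.v z * (T.W.a * L.b - T.W.b * L.a)) < 0) : T.X (zt L z t) < T.X z := by
  unfold Ch.X
  rw [div_lt_div_iff₀ hW' hW, zt_v, zt_v]
  linarith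

theorem edge_move (T : Ch) (h : Fin k → Ln) (l : Fin n → Ln) (s : Fin n → Bool) (i : Fin n)
    (hW : ∀ z ∈ inn h, 0 < T.W.v z) (hB : cB T (l i) ≠ 0) (z : ℝ × ℝ) (hz : z ∈ inn h)
    (hE : Se l s i z) :
    (∃ z' ∈ inn h, Se l s i z' ∧ T.X z < T.X z') ∧ ∃ z' ∈ inn h, Se l s i z' ∧ T.X z' < T.X z := by
  obtain ⟨ε, hε, hn⟩ := gb_near h l s i z hz hE
  have hD := gb_ne T (l i) z hB hE.1 (hW z hz)
  have p1 := hn (ε / 2) (by rw [abs_of_pos (by linarith)]; linarith)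
  have p2 := hn (-(ε / 2)) (by rw [abs_neg, abs_of_pos (by linarith)]; linarith)
  have w0 := hW z hz
  have w1 := hW _ p1.1
  have w2 := hW _ p2.1
  have hε2 : 0 < ε / 2 := by linarith
  rcases lt_or_gt_of_ne hD with hd | hd
  · refine ⟨⟨_, p2.1, p2.2, gb_X T (l i) z _ w0 w2 ?_⟩, ⟨_, p1.1, p1.2, gb_X' T (l i) z _ w0 w1 ?_⟩⟩
    · exact mul_pos_of_neg_of_neg (by linarith) hd
    · exact mul_neg_of_pos_of_neg hε2 hd
  · refine ⟨⟨_, p1.1, p1.2, gb_X T (l i) z _ w0 w1 ?_⟩, ⟨_, p2.1, p2.2, gb_X' T (l i) z _ w0 w2 ?_⟩⟩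
    · exact mul_pos hε2 hd
    · exact mul_neg_of_neg_of_pos (by linarith) hd

private noncomputable def sg (z z' : ℝ × ℝ) (t : ℝ) : ℝ × ℝ :=
  ((1 - t) * z.1 + t * z'.1, (1 - t) * z.2 + t * z'.2)

private theorem sg_ev (m : Ln) (z z' : ℝ × ℝ) (t : ℝ) :
    m.ev (sg z z' t) = (1 - t) * m.ev z + t * m.ev z' := by
  unfold Ln.ev sg
  ring

private theorem sg_v (g : Fm) (z z' : ℝ × ℝ) (t : ℝ) :
    g.v (sg z z' t) = (1 - t) * g.v z + t * g.v z' := by
  unfold Fm.v sg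
  ring

theorem seg_wall (T : Ch) (l : Fin n → Ln) (s : Fin n → Bool) (i : Fin n) (β : ℝ) (z z' : ℝ × ℝ)
    (hz : Sg l s z) (hz' : Se l s i z') (hW : 0 < T.W.v z) (hW' : 0 < T.W.v z') (h1 : T.X z ≤ β)
    (h2 : β < T.X z') : ∃ z0, 0 < T.W.v z0 ∧ T.X z0 = β ∧ Sg l s z0 := by
  rcases h1.eq_or_lt with he | hlt
  · exact ⟨z, hW, he, hz⟩
  have g0 : T.U.v z - β * T.W.v z < 0 := by
    unfold Ch.X at hlt
    rw [div_lt_iff₀ hW] at hlt
    linarith
  have g1 : 0 < T.U.v z' - β * T.W.v z' := by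
    unfold Ch.X at h2
    rw [lt_div_iff₀ hW'] at h2
    linarith
  have hd : 0 < (T.U.v z' - β * T.W.v z') - (T.U.v z - β * T.W.v z) := by linarith
  obtain ⟨t, ht⟩ : ∃ t, t = -(T.U.v z - β * T.W.v z) /
      ((T.U.v z' - β * T.W.v z') - (T.U.v z - β * T.W.v z)) := ⟨_, rfl⟩
  have t0 : 0 < t := by
    rw [ht]
    exact div_pos (by linarith) hd
  have t1 : t < 1 := by
    rw [ht, div_lt_one hd]
    linarith
  have te : t * ((T.U.v z' - β * T.W.v z') - (T.U.v z - β * T.W.v z)) =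
      -(T.U.v z - β * T.W.v z) := by
    rw [ht]
    exact div_mul_cancel₀ _ hd.ne'
  have hw0 : 0 < T.W.v (sg z z' t) := by
    rw [sg_v]
    have a1 := mul_pos (sub_pos.2 t1) hW
    have a2 := mul_pos t0 hW'
    linarith
  refine ⟨sg z z' t, hw0, ?_, fun j => ?_⟩
  · unfold Ch.X
    rw [div_eq_iff hw0.ne', sg_v, sg_v]
    linear_combination te
  · rw [sg_ev]
    have a1 := mul_pos (sub_pos.2 t1) (hz j)
    by_cases e : j = i
    · have a3 : (l j).ev z' = 0 := by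
        rw [e]
        exact hz'.1
      rw [a3]
      linarith
    · have a2 := mul_pos t0 (hz'.2 j e)
      linarith

end Pool.Agent.Work.MP_e64a38_co.GG
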