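import Pool.Agent.Work.MP_e64a38_co.GG.Defs

/-!
# Quasisymmetric slopes (size M)

Write `D(a, b) = s b - s a`.
`qs_mono`: as `FF.wal_mono`: add the two supporting inequalities for `x`, `z`: `(s z - s x) (z - x) ≥ 0`.
`ext_l`: `t = x - a`. If `t = 0` then `D(a, x) = 0 ≤ K D(x, b)` (`qs_mono`, `K ≥ 0`). Otherwise
`D(x - t, x) ≤ K D(x, x + t) ≤ K D(x, b)` (`x + t ≤ b`, `qs_mono`). `ext_r`: the mirror image.
`qs_meet`: if `a ≤ a'` and `b' ≤ b` use `qs_mono`. If `a' < a` then `b' < b`, and `D(a', b') ≤ D(a', a) + D(a, b)`,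
`D(a', a) ≤ K D(a, b)` by `ext_l` (`a - a' ≤ b' - a' ≤ b - a` because `a ≤ b'`). If `b < b'` then `a < a'` and
symmetrically by `ext_r` (`b' - b ≤ b - a` because `a' ≤ b`).
`qs_three`: claim for natural `m`: if `c ≤ a'`, `α ≤ c` and `a' - c ≤ (2 ^ m - 1) (b' - a')` then
`D(c, b') ≤ (1 + K) ^ m D(a', b')`. `m = 0`: `c = a'`. Step from `m` to `m + 1`: let
`c' = max c (a' - (2 ^ m - 1) (b' - a'))`; by induction `D(c', b') ≤ (1 + K) ^ m D(a', b')`, and if `c < c'` then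
`c' - c ≤ 2 ^ m (b' - a') = b' - c'`, so `D(c, c') ≤ K D(c', b')` by `ext_l`. Use `m = 3`.
-/

set_option autoImplicit false

namespace Pool.Agent.Work.MP_e64a38_co.GG

theorem qs_mono (K α β : ℝ) (f s : ℝ → ℝ) (h : QSf K α β f s) (x z : ℝ) (h1 : α ≤ x) (h2 : x ≤ z)
    (h3 : z ≤ β) : s x ≤ s z := by
  rcases h2.eq_or_lt with rfl | h2'
  · exact le_rfl
  have e1 := h.1 x z h1 (h2.trans h3) (h1.trans h2) h3
  have e2 := h.1 z x (h1.trans h2) h3 h1 (h2.trans h3)
  have e3 : 0 ≤ (s z - s x) * (z - x) := by nlinarith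
  have e4 : 0 ≤ s z - s x := by
    by_contra hc
    push Not at hc
    have : (s z - s x) * (z - x) < 0 := mul_neg_of_neg_of_pos hc (sub_pos.mpr h2')
    linarith
  linarith

theorem ext_l (K α β : ℝ) (f s : ℝ → ℝ) (hK : 0 ≤ K) (h : QSf K α β f s) (a x b : ℝ) (h1 : α ≤ a)
    (h2 : a ≤ x) (h3 : x ≤ b) (h4 : b ≤ β) (h5 : x - a ≤ b - x) :
    s x - s a ≤ K * (s b - s x) := by
  have hb : s x ≤ s b := qs_mono K α β f s h x b (h1.trans h2) h3 h4
  rcases h2.eq_or_lt with rfl | h2'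
  · have : 0 ≤ K * (s b - s a) := mul_nonneg hK (sub_nonneg.mpr hb)
    linarith
  have e := (h.2 x (x - a) (sub_pos.mpr h2') (by linarith) (by linarith)).2
  have e1 : x - (x - a) = a := by ring
  rw [e1] at e
  have e2 : s (x + (x - a)) ≤ s b :=
    qs_mono K α β f s h _ _ (by linarith) (by linarith) h4
  have e3 : K * (s (x + (x - a)) - s x) ≤ K * (s b - s x) :=
    mul_le_mul_of_nonneg_left (by linarith) hK
  linarith

theorem ext_r (K α β : ℝ) (f s : ℝ → ℝ) (hK : 0 ≤ K) (h : QSf K α β f s) (a x b : ℝ) (h1 : α ≤ a)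
    (h2 : a ≤ x) (h3 : x ≤ b) (h4 : b ≤ β) (h5 : b - x ≤ x - a) :
    s b - s x ≤ K * (s x - s a) := by
  have ha : s a ≤ s x := qs_mono K α β f s h a x h1 h2 (h3.trans h4)
  rcases h3.eq_or_lt with rfl | h3'
  · have : 0 ≤ K * (s x - s a) := mul_nonneg hK (sub_nonneg.mpr ha)
    linarith
  have e := (h.2 x (b - x) (sub_pos.mpr h3') (by linarith) (by linarith)).1
  have e1 : x + (b - x) = b := by ring
  rw [e1] at e
  have e2 : s a ≤ s (x - (b - x)) :=
    qs_mono K α β f s h _ _ h1 (by linarith) (by linarith)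
  have e3 : K * (s x - s (x - (b - x))) ≤ K * (s x - s a) :=
    mul_le_mul_of_nonneg_left (by linarith) hK
  linarith

theorem qs_meet (K α β : ℝ) (f s : ℝ → ℝ) (hK : 0 ≤ K) (h : QSf K α β f s) (a b a' b' : ℝ)
    (h1 : α ≤ a) (h2 : a ≤ b) (h3 : b ≤ β) (h1' : α ≤ a') (h2' : a' ≤ b') (h3' : b' ≤ β)
    (h4 : a ≤ b') (h5 : a' ≤ b) (h6 : b' - a' ≤ b - a) :
    s b' - s a' ≤ (1 + K) * (s b - s a) := by
  have hab : s a ≤ s b := qs_mono K α β f s h a b h1 h2 h3
  have hK2 : 0 ≤ K * (s b - s a) := mul_nonneg hK (sub_nonneg.mpr hab)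
  rcases le_or_gt a a' with c1 | c1
  · have m1 : s a ≤ s a' := qs_mono K α β f s h a a' h1 c1 (h2'.trans h3')
    rcases le_or_gt b' b with c2 | c2
    · have m2 : s b' ≤ s b := qs_mono K α β f s h b' b (h1'.trans h2') c2 h3
      nlinarith
    · have m2 := ext_r K α β f s hK h a b b' h1 h2 c2.le h3' (by linarith)
      nlinarith
  · have m2 : s b' ≤ s b := qs_mono K α β f s h b' b (h1'.trans h2') (by linarith) h3
    have m1 := ext_l K α β f s hK h a' a b h1' c1.le h2 h3 (by linarith)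
    nlinarith

private theorem GC1_step (K α β : ℝ) (f s : ℝ → ℝ) (hK : 0 ≤ K) (h : QSf K α β f s) (a' b' : ℝ)
    (h3 : a' ≤ b') (h4 : b' ≤ β) (m : ℕ) :
    ∀ c, α ≤ c → c ≤ a' → a' - c ≤ (2 ^ m - 1) * (b' - a') →
      s b' - s c ≤ (1 + K) ^ m * (s b' - s a') := by
  induction m with
  | zero =>
    intro c h1 h2 h5
    have e : c = a' := by
      apply le_antisymm h2
      simp at h5
      exact h5
    rw [e]
    simp
  | succ m ih =>
    intro c h1 h2 h5
    have hp : (1 : ℝ) ≤ 2 ^ m := one_le_pow₀ (by norm_num)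
    have hba : 0 ≤ b' - a' := sub_nonneg.mpr h3
    have hn : 0 ≤ (2 ^ m - 1) * (b' - a') := mul_nonneg (by linarith) hba
    set c' := max c (a' - (2 ^ m - 1) * (b' - a')) with hc'
    have g1 : c ≤ c' := le_max_left _ _
    have g2 : a' - (2 ^ m - 1) * (b' - a') ≤ c' := le_max_right _ _
    have g3 : c' ≤ a' := max_le h2 (by linarith)
    have i1 := ih c' (h1.trans g1) g3 (by linarith)
    have j1 : s c ≤ s c' := qs_mono K α β f s h c c' h1 g1 (g3.trans (h3.trans h4))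
    have j2 : s c' ≤ s b' := qs_mono K α β f s h c' b' (h1.trans g1) (g3.trans h3) h4
    have i2 : s c' - s c ≤ K * (s b' - s c') := by
      rcases le_total (a' - (2 ^ m - 1) * (b' - a')) c with d | d
      · have e : c' = c := by rw [hc']; exact max_eq_left d
        rw [e]
        have : 0 ≤ K * (s b' - s c) := mul_nonneg hK (by linarith)
        linarith
      · have e : c' = a' - (2 ^ m - 1) * (b' - a') := by rw [hc']; exact max_eq_right d
        apply ext_l K α β f s hK h c c' b' h1 g1 (g3.trans h3) h4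
        rw [e]
        rw [pow_succ] at h5
        nlinarith
    have i3 : s b' - s c ≤ (1 + K) * (s b' - s c') := by linarith
    have i4 : (1 + K) * (s b' - s c') ≤ (1 + K) * ((1 + K) ^ m * (s b' - s a')) :=
      mul_le_mul_of_nonneg_left i1 (by linarith)
    calc s b' - s c ≤ (1 + K) * ((1 + K) ^ m * (s b' - s a')) := i3.trans i4
      _ = (1 + K) ^ (m + 1) * (s b' - s a') := by ring

theorem qs_three (K α β : ℝ) (f s : ℝ → ℝ) (hK : 0 ≤ K) (h : QSf K α β f s) (c a' b' : ℝ)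
    (h1 : α ≤ c) (h2 : c ≤ a') (h3 : a' ≤ b') (h4 : b' ≤ β) (h5 : a' - c ≤ 7 * (b' - a')) :
    s b' - s c ≤ (1 + K) ^ 3 * (s b' - s a') := by
  apply GC1_step K α β f s hK h a' b' h3 h4 3 c h1 h2
  norm_num
  linarith

end Pool.Agent.Work.MP_e64a38_co.GG
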