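import Pool.Agent.Work.MP_e64a38_co.GG.Defs

/-!
# Slopes of chords and tangents of a convex function (size M)

`hs`: `f x + s x (z - x) ≤ f z` on `[α, β]`. Write `S(a, b) = (f b - f a) / (b - a)`.
`s_mono`: as `FF.wal_mono`.
`ch_lo`, `ch_hi`: `s a ≤ S(a, b) ≤ s b` for `a < b`: `hs` for `(a, b)` and for `(b, a)`.
`ch_mono`: for `a < b`, `a' < b'`, `a ≤ a'`, `b ≤ b'`: `S(a, b) ≤ S(a', b')`. First `S(a, b) ≤ S(a, b')`: if `b < b'` then
`S(a, b) ≤ s b ≤ S(b, b')` and `S(a, b')` is the average of `S(a, b)` and `S(b, b')` with the weights `b - a`,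
`b' - b`. In the same way `S(a, b') ≤ S(a', b')`: if `a < a'` then `S(a, a') ≤ s a' ≤ S(a', b')`.
`ch_q`: `m = (a + b) / 2`, `q1 = a + (b - a) / 4`, `q3 = a + 3 (b - a) / 4`. `f b ≥ f q3 + s q3 (b - a) / 4` and
`f q3 ≥ f m + s m (b - a) / 4`, so `S(m, b) ≥ (s m + s q3) / 2`. `f m - f q1 ≤ s m (b - a) / 4` (`hs` for `(m, q1)`) and
`f q1 - f a ≤ s q1 (b - a) / 4`, so `S(a, m) ≤ (s m + s q1) / 2`. Subtract.
`cs_rng`: for `u < v` `ch_lo`, `ch_hi`; for `u = v` trivial.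
`cs_le`: `u ≤ a`, `v ≤ b`, `a < b`: for `u < v` `ch_mono`; for `u = v`: `m = s u ≤ s a ≤ S(a, b)`.
`cs_ge`: `a ≤ u`, `b ≤ v`, `a < b`: for `u < v` `ch_mono`; for `u = v`: `S(a, b) ≤ s b ≤ s u = m`.
-/

set_option autoImplicit false

namespace Pool.Agent.Work.MP_e64a38_co.GG

theorem s_mono (α β : ℝ) (f s : ℝ → ℝ)
    (hs : ∀ x z, α ≤ x → x ≤ β → α ≤ z → z ≤ β → f x + s x * (z - x) ≤ f z) (x z : ℝ) (h1 : α ≤ x)
    (h2 : x ≤ z) (h3 : z ≤ β) : s x ≤ s z := by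
  rcases eq_or_lt_of_le h2 with h | h
  · rw [h]
  · have k1 := hs x z h1 (h2.trans h3) (h1.trans h2) h3
    have k2 := hs z x (h1.trans h2) h3 h1 (h2.trans h3)
    by_contra hc
    have k3 := mul_pos (sub_pos.2 (not_le.1 hc)) (sub_pos.2 h)
    nlinarith

private theorem ch_lo (α β : ℝ) (f s : ℝ → ℝ)
    (hs : ∀ x z, α ≤ x → x ≤ β → α ≤ z → z ≤ β → f x + s x * (z - x) ≤ f z) (a b : ℝ)
    (h1 : α ≤ a) (h2 : a < b) (h3 : b ≤ β) : s a ≤ (f b - f a) / (b - a) := by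
  rw [le_div_iff₀ (sub_pos.2 h2)]
  have := hs a b h1 (h2.le.trans h3) (h1.trans h2.le) h3
  linarith

private theorem ch_hi (α β : ℝ) (f s : ℝ → ℝ)
    (hs : ∀ x z, α ≤ x → x ≤ β → α ≤ z → z ≤ β → f x + s x * (z - x) ≤ f z) (a b : ℝ)
    (h1 : α ≤ a) (h2 : a < b) (h3 : b ≤ β) : (f b - f a) / (b - a) ≤ s b := by
  rw [div_le_iff₀ (sub_pos.2 h2)]
  have := hs b a (h1.trans h2.le) h3 h1 (h2.le.trans h3)
  linarith

private theorem ch_mono (α β : ℝ) (f s : ℝ → ℝ)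
    (hs : ∀ x z, α ≤ x → x ≤ β → α ≤ z → z ≤ β → f x + s x * (z - x) ≤ f z) (a b a' b' : ℝ)
    (h1 : α ≤ a) (h2 : a < b) (h2' : a' < b') (h3 : b' ≤ β) (ha : a ≤ a') (hb : b ≤ b') :
    (f b - f a) / (b - a) ≤ (f b' - f a') / (b' - a') := by
  have hab' : a < b' := lt_of_lt_of_le h2 hb
  have e1 : (f b - f a) / (b - a) ≤ (f b' - f a) / (b' - a) := by
    rw [div_le_div_iff₀ (sub_pos.2 h2) (sub_pos.2 hab')]
    have k1 := hs b a (h1.trans h2.le) (hb.trans h3) h1 (h2.le.trans (hb.trans h3))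
    have k2 := hs b b' (h1.trans h2.le) (hb.trans h3) (h1.trans hab'.le) h3
    have k3 := mul_le_mul_of_nonneg_right (show f b - f a ≤ s b * (b - a) by linarith)
      (sub_nonneg.2 hb)
    have k4 := mul_le_mul_of_nonneg_right (show s b * (b' - b) ≤ f b' - f b by linarith)
      (sub_nonneg.2 h2.le)
    nlinarith
  have e2 : (f b' - f a) / (b' - a) ≤ (f b' - f a') / (b' - a') := by
    rw [div_le_div_iff₀ (sub_pos.2 hab') (sub_pos.2 h2')]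
    have k1 := hs a' a (h1.trans ha) (h2'.le.trans h3) h1 (ha.trans (h2'.le.trans h3))
    have k2 := hs a' b' (h1.trans ha) (h2'.le.trans h3) (h1.trans hab'.le) h3
    have k3 := mul_le_mul_of_nonneg_right (show f a' - f a ≤ s a' * (a' - a) by linarith)
      (sub_nonneg.2 h2'.le)
    have k4 := mul_le_mul_of_nonneg_right (show s a' * (b' - a') ≤ f b' - f a' by linarith)
      (sub_nonneg.2 ha)
    nlinarith
  exact e1.trans e2

theorem ch_q (α β : ℝ) (f s : ℝ → ℝ)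
    (hs : ∀ x z, α ≤ x → x ≤ β → α ≤ z → z ≤ β → f x + s x * (z - x) ≤ f z) (a b : ℝ) (h1 : α ≤ a)
    (h2 : a < b) (h3 : b ≤ β) :
    (s (a + 3 * (b - a) / 4) - s (a + (b - a) / 4)) / 2 ≤
      (f b - f ((a + b) / 2)) / (b - (a + b) / 2) - (f ((a + b) / 2) - f a) / ((a + b) / 2 - a) := by
  have k1 := hs (a + 3 * (b - a) / 4) b (by linarith) (by linarith) (by linarith) h3
  have k2 := hs ((a + b) / 2) (a + 3 * (b - a) / 4) (by linarith) (by linarith) (by linarith)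
    (by linarith)
  have k3 := hs ((a + b) / 2) (a + (b - a) / 4) (by linarith) (by linarith) (by linarith)
    (by linarith)
  have k4 := hs (a + (b - a) / 4) a (by linarith) (by linarith) h1 (by linarith)
  have e1 : (s (a + 3 * (b - a) / 4) + s ((a + b) / 2)) / 2 ≤
      (f b - f ((a + b) / 2)) / (b - (a + b) / 2) := by
    rw [le_div_iff₀ (by linarith)]
    nlinarith
  have e2 : (f ((a + b) / 2) - f a) / ((a + b) / 2 - a) ≤
      (s ((a + b) / 2) + s (a + (b - a) / 4)) / 2 := by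
    rw [div_le_iff₀ (by linarith)]
    nlinarith
  linarith

theorem cs_rng (α β : ℝ) (f s : ℝ → ℝ)
    (hs : ∀ x z, α ≤ x → x ≤ β → α ≤ z → z ≤ β → f x + s x * (z - x) ≤ f z) (u v m : ℝ) (h1 : α ≤ u)
    (h3 : v ≤ β) (hm : Cs f s u v m) : s u ≤ m ∧ m ≤ s v := by
  rcases hm with ⟨h, rfl⟩ | ⟨rfl, rfl⟩
  · exact ⟨ch_lo α β f s hs u v h1 h h3, ch_hi α β f s hs u v h1 h h3⟩
  · exact ⟨le_rfl, le_rfl⟩

theorem cs_le (α β : ℝ) (f s : ℝ → ℝ)
    (hs : ∀ x z, α ≤ x → x ≤ β → α ≤ z → z ≤ β → f x + s x * (z - x) ≤ f z) (u v m a b : ℝ)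
    (h1 : α ≤ u) (hm : Cs f s u v m) (h2 : u ≤ a) (h4 : v ≤ b) (h5 : a < b) (h6 : b ≤ β) :
    m ≤ (f b - f a) / (b - a) := by
  rcases hm with ⟨h, rfl⟩ | ⟨rfl, rfl⟩
  · exact ch_mono α β f s hs u v a b h1 h h5 h6 h2 h4
  · exact (s_mono α β f s hs u a h1 h2 (h5.le.trans h6)).trans
      (ch_lo α β f s hs a b (h1.trans h2) h5 h6)

theorem cs_ge (α β : ℝ) (f s : ℝ → ℝ)
    (hs : ∀ x z, α ≤ x → x ≤ β → α ≤ z → z ≤ β → f x + s x * (z - x) ≤ f z) (u v m a b : ℝ)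
    (h3 : v ≤ β) (hm : Cs f s u v m) (h2 : a ≤ u) (h4 : b ≤ v) (h5 : a < b) (h6 : α ≤ a) :
    (f b - f a) / (b - a) ≤ m := by
  rcases hm with ⟨h, rfl⟩ | ⟨rfl, rfl⟩
  · exact ch_mono α β f s hs a b u v h6 h5 h h3 h2 h4
  · exact (ch_hi α β f s hs a b h6 h5 (h4.trans h3)).trans
      (s_mono α β f s hs b u (h6.trans h5.le) h4 h3)

end Pool.Agent.Work.MP_e64a38_co.GG
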