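import Pool.Agent.Work.MP_e64a38_co.GG.GC1
import Pool.Agent.Work.MP_e64a38_co.GG.GC2

/-!
# The slopes of two consecutive chords (size M)

`gap_lo`. Let `M = v' - u > 0`, `c = (u + v') / 2`, `q1 = u + M / 4`, `q3 = u + 3 M / 4`, `S(a, b)` the slope of the chord of
`f`. Note `S(u, v') = (S(u, c) + S(c, v')) / 2`.
Case `v ≤ c`: `m ≤ S(u, c)` (`cs_le`) and `m' ≥ S(u, v')` (`cs_ge`, `u ≤ u'`, `v' ≤ v'`), so
`m' - m ≥ (S(c, v') - S(u, c)) / 2`. Case `c < v`: `m ≤ S(u, v')` (`cs_le`, `u ≤ u`, `v ≤ v'`) and `m' ≥ S(c, v')` (`cs_ge`,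
`c ≤ v ≤ u'`), so again `m' - m ≥ (S(c, v') - S(u, c)) / 2`. By `ch_q` `m' - m ≥ (s q3 - s q1) / 4`.
By `ext_l` `s q1 - s u ≤ K (s q3 - s q1)` (`q1 - u = M / 4 ≤ M / 2 = q3 - q1`) and by `ext_r`
`s v' - s q3 ≤ K (s q3 - s q1)`, so `s v' - s u ≤ (1 + 2 K) (s q3 - s q1) ≤ 4 (1 + 2 K) (m' - m)`.
-/

set_option autoImplicit false

namespace Pool.Agent.Work.MP_e64a38_co.GG

theorem gap_lo (K α β : ℝ) (f s : ℝ → ℝ) (hK : 0 ≤ K) (h : QSf K α β f s) (u v m u' v' m' : ℝ)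
    (hm : Cs f s u v m) (hm' : Cs f s u' v' m') (h1 : α ≤ u) (h2 : u ≤ v) (h3 : v ≤ u')
    (h4 : u' ≤ v') (h5 : v' ≤ β) (h6 : u < v') : s v' - s u ≤ 4 * (1 + 2 * K) * (m' - m) := by
  have hs := h.1
  have hq := ch_q α β f s hs u v' h1 h6 h5
  set c : ℝ := (u + v') / 2 with hc
  set q1 : ℝ := u + (v' - u) / 4 with hq1
  set q3 : ℝ := u + 3 * (v' - u) / 4 with hq3
  have huc : u < c := by rw [hc]; linarith
  have hcv : c < v' := by rw [hc]; linarith
  have havg : (f v' - f u) / (v' - u)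
      = ((f c - f u) / (c - u) + (f v' - f c) / (v' - c)) / 2 := by
    have e1 : c - u = (v' - u) / 2 := by rw [hc]; ring
    have e2 : v' - c = (v' - u) / 2 := by rw [hc]; ring
    have hne : v' - u ≠ 0 := by linarith
    rw [e1, e2]
    field_simp
    ring
  have hgap : (s q3 - s q1) / 4 ≤ m' - m := by
    rcases le_or_gt v c with hv | hv
    · have a1 := cs_le α β f s hs u v m u c h1 hm le_rfl hv huc (by linarith)
      have a2 := cs_ge α β f s hs u' v' m' u v' h5 hm' (h2.trans h3) le_rfl h6 h1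
      rw [havg] at a2
      linarith
    · have a1 := cs_le α β f s hs u v m u v' h1 hm le_rfl (h3.trans h4) h6 h5
      have a2 := cs_ge α β f s hs u' v' m' c v' h5 hm' (hv.le.trans h3) le_rfl hcv (by linarith)
      rw [havg] at a1
      linarith
  have b1 := ext_l K α β f s hK h u q1 q3 h1 (by rw [hq1]; linarith) (by rw [hq1, hq3]; linarith)
    (by rw [hq3]; linarith) (by rw [hq1, hq3]; linarith)
  have b2 := ext_r K α β f s hK h q1 q3 v' (by rw [hq1]; linarith) (by rw [hq1, hq3]; linarith)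
    (by rw [hq3]; linarith) h5 (by rw [hq1, hq3]; linarith)
  have b3 : s v' - s u ≤ (1 + 2 * K) * (s q3 - s q1) := by linarith
  have b4 : (1 + 2 * K) * (s q3 - s q1) ≤ (1 + 2 * K) * (4 * (m' - m)) :=
    mul_le_mul_of_nonneg_left (by linarith) (by linarith)
  linarith

end Pool.Agent.Work.MP_e64a38_co.GG
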