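import Pool.Agent.Work.MP_e64a38_co.GG.GC3

/-!
# Where two supporting lines cross (size M)

`cross_lo`. Let `Λ = v' - u`. First `v ≤ w`: if `v = u'` then `hw` gives `(m' - m) (w - v) = 0`, so `w = v`. If `v < u'` let
`S = (f u' - f v) / (u' - v)`; `hw` says `(w - v) (m' - m) = (m' - S) (u' - v)` (*), and `m' ≥ S` (`cs_ge` with
`a = v`, `b = u'`), so `w ≥ v`.
Case `Λ ≤ 4 (v - u)`: `w - u ≥ v - u ≥ Λ / 4`, and `48 K ^ 2 ≥ 4`.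
Case `4 (v - u) < Λ`: `u' - v = Λ - (v - u) - (v' - u') ≥ Λ / 2 > 0` (`h7`). `gap_lo` for the chord `[v, u']` with slope
`S` and `[u', v']`, `m'`: `s v' - s v ≤ 4 (1 + 2 K) (m' - S)`. `ext_l`: `s v - s u ≤ K (s v' - s v)` (`v - u ≤ v' - v`), so
`s v' - s u ≤ (1 + K) (s v' - s v)`. `m' - m ≤ s v' - s u` (`cs_rng`). So by (*)
`(w - v) (m' - m) ≥ (Λ / 2) (m' - S) ≥ (Λ / 2) (s v' - s v) / (4 (1 + 2 K))
≥ (Λ / 2) (m' - m) / (4 (1 + 2 K) (1 + K))`. Divide by `m' - m > 0`: `Λ ≤ 8 (1 + 2 K) (1 + K) (w - v)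
≤ 48 K ^ 2 (w - u)` (`1 + 2 K ≤ 3 K`, `1 + K ≤ 2 K`).
-/

set_option autoImplicit false

namespace Pool.Agent.Work.MP_e64a38_co.GG

theorem cross_lo (K α β : ℝ) (f s : ℝ → ℝ) (hK : 1 ≤ K) (h : QSf K α β f s) (u v m u' v' m' w : ℝ)
    (hm : Cs f s u v m) (hm' : Cs f s u' v' m') (h1 : α ≤ u) (h2 : u ≤ v) (h3 : v ≤ u')
    (h4 : u' ≤ v') (h5 : v' ≤ β) (h6 : m < m') (h7 : 4 * (v' - u') ≤ v' - u)
    (hw : f v + m * (w - v) = f u' + m' * (w - u')) : v' - u ≤ 48 * K ^ 2 * (w - u) := by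
  sorry

end Pool.Agent.Work.MP_e64a38_co.GG
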