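import Pool.Agent.Work.MP_e64a38_co.GG.GC4

/-!
# Polygons that touch a curve with quasisymmetric slope are not flattening (size M-L)

`touch_q`. Write `m_i = ψ x_i`, `L_i z = φ x_i + m_i (z - x_i)`, `L_i ≤ φ` on `[α, β]` (`hφ`). For `i = 1, ..., 4` `hT` gives
`u_i ≤ v_i` in `[α, β]` with `L_i u_i = f u_i = φ u_i`, `L_i v_i = f v_i = φ v_i`, so `Cs f s u_i v_i m_i`. From `QB` and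
`N > 0`: `m_1 < m_2 < m_3 < m_4`.
(1) `v_i ≤ u_(i+1)` for `i = 1, 2, 3`: `d = L_(i+1) - L_i` is affine with slope `m_(i+1) - m_i > 0`,
`d v_i = L_(i+1) v_i - φ v_i ≤ 0` and `d u_(i+1) = φ u_(i+1) - L_i u_(i+1) ≥ 0`.
(2) `x_3 ≤ u_4`: `d = L_4 - L_3`: `d x_3 = L_4 x_3 - φ x_3 ≤ 0 ≤ φ u_4 - L_3 u_4 = d u_4`.
(3) `x_0 ≤ u_1`: if `x_0 < α` clear. Otherwise `m_1 - m_0 ≥ N (m_2 - m_1) > 0` and `d = L_1 - L_0`: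
`d x_0 = L_1 x_0 - φ x_0 ≤ 0 ≤ φ u_1 - L_0 u_1 = d u_1`.
(4) Let `w` be the zero of `L_2 - L_1`; `w ≤ x_2`, because `(L_2 - L_1) x_2 = φ x_2 - L_1 x_2 ≥ 0`.
`L_1 w = f v_1 + m_1 (w - v_1)`, `L_2 w = f u_2 + m_2 (w - u_2)`.
(5) `4 (v_3 - u_2) ≤ v_2 - u_1`: otherwise `u_2 - u_1 ≤ v_2 - u_1 < 4 (v_3 - u_2)`, so by `qs_three`
`s v_3 - s u_1 ≤ (1 + K) ^ 3 (s v_3 - s u_2)`. `m_2 - m_1 ≤ s v_2 - s u_1` (`cs_rng`) `≤ s v_3 - s u_1`, and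
`s v_3 - s u_2 ≤ 4 (1 + 2 K) (m_3 - m_2)` (`gap_lo`), so `N (m_3 - m_2) ≤ m_2 - m_1
≤ (1 + K) ^ 3 4 (1 + 2 K) (m_3 - m_2) ≤ 96 K ^ 4 (m_3 - m_2)`, a contradiction (`N ≥ 200 K ^ 4`, `m_3 > m_2`).
(6) `v_4 - u_3 ≤ v_3 - u_2`: otherwise by `qs_meet` (`a = u_3`, `b = v_4`, `a' = u_2`, `b' = v_3`)
`s v_3 - s u_2 ≤ (1 + K) (s v_4 - s u_3) ≤ (1 + K) 4 (1 + 2 K) (m_4 - m_3) ≤ 24 K ^ 2 (m_4 - m_3)`, and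
`N (m_4 - m_3) ≤ m_3 - m_2 ≤ s v_3 - s u_2`, a contradiction.
(7) Let `Λ = v_2 - u_1`; `Λ > 0` (otherwise `u_1 = v_1 = u_2 = v_2` and `m_1 = s u_1 = m_2`). `4 (v_2 - u_2) ≤ Λ` by (5),
so `cross_lo`: `Λ ≤ 48 K ^ 2 (w - u_1)`. By (3) `x_1 - u_1 ≤ x_1 - x_0 ≤ (x_2 - x_1) / N ≤ x_2 - x_1`, and `x_2 ≥ w`, so
`w - u_1 ≤ 2 (x_2 - x_1)`. By (2) `x_3 - x_2 ≤ u_4 - w ≤ u_4 - u_1 = (u_4 - v_3) + (v_3 - u_2) + (u_2 - u_1)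
≤ (v_4 - u_3) + (v_3 - u_2) + Λ ≤ Λ / 4 + Λ / 4 + Λ ≤ 2 Λ`. So `Λ ≤ 96 K ^ 2 (x_2 - x_1)` and
`200 K ^ 4 (x_2 - x_1) ≤ N (x_2 - x_1) ≤ x_3 - x_2 ≤ 2 Λ ≤ 192 K ^ 2 (x_2 - x_1)`, a contradiction.
-/

set_option autoImplicit false

namespace Pool.Agent.Work.MP_e64a38_co.GG

theorem touch_q (K N α β : ℝ) (φ ψ f s : ℝ → ℝ) (hK : 1 ≤ K) (hN : 200 * K ^ 4 ≤ N)
    (hφ : ∀ x z, α ≤ x → x ≤ β → α ≤ z → z ≤ β → φ x + ψ x * (z - x) ≤ φ z)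
    (h : QSf K α β f s) (hT : Touch α β φ ψ f s) (x0 x1 x2 x3 x4 : ℝ)
    (hq : QB N α β ψ x0 x1 x2 x3 x4) : False := by
  sorry

end Pool.Agent.Work.MP_e64a38_co.GG
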