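import Pool.Agent.Work.MP_e64a38_co.GG.GC5

/-!
# Both directions (size S-M)

The hypotheses are invariant under the mirror image `x ↦ - x`: `φ' x = φ (-x)`, `FF.mr ψ`, `f' x = f (-x)`, `FF.mr s` on
`[-β, -α]`. `QSf`: for the increments replace `(x, t)` by `(-x, t)`: `mr s (x + t) - mr s x = s (-x) - s (-x - t)`.
`Touch`: for `x` take `- v ≤ - u` of `- x`; if `- v = - u` then `ψ (-x) = s u`, so `mr ψ x = mr s (-u)`.
`touch_deep`: `DeepB` contains (for `j = 0`) one `QB`; apply `touch_q` to the data and to the mirror image.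
-/

set_option autoImplicit false

namespace Pool.Agent.Work.MP_e64a38_co.GG

theorem touch_mir (K α β : ℝ) (φ ψ f s : ℝ → ℝ)
    (hφ : ∀ x z, α ≤ x → x ≤ β → α ≤ z → z ≤ β → φ x + ψ x * (z - x) ≤ φ z)
    (h : QSf K α β f s) (hT : Touch α β φ ψ f s) :
    (∀ x z, -β ≤ x → x ≤ -α → -β ≤ z → z ≤ -α → φ (-x) + FF.mr ψ x * (z - x) ≤ φ (-z)) ∧
      QSf K (-β) (-α) (fun x => f (-x)) (FF.mr s) ∧
      Touch (-β) (-α) (fun x => φ (-x)) (FF.mr ψ) (fun x => f (-x)) (FF.mr s) := by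
  sorry

theorem touch_deep (K N α β : ℝ) (D : ℕ) (φ ψ f s : ℝ → ℝ) (hK : 1 ≤ K) (hN : 200 * K ^ 4 ≤ N)
    (hφ : ∀ x z, α ≤ x → x ≤ β → α ≤ z → z ≤ β → φ x + ψ x * (z - x) ≤ φ z)
    (h : QSf K α β f s) (hT : Touch α β φ ψ f s) :
    ¬ DeepB N D α β ψ ∧ ¬ DeepB N D (-β) (-α) (FF.mr ψ) := by
  sorry

end Pool.Agent.Work.MP_e64a38_co.GG
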