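import Mathlib

/-!
# Increments of a monotone polynomial (size M-L)

`G` is a polynomial of degree at most `d`, `1 ≤ d`, monotone on `[x - t, x + t]`, `t > 0`. Claim:
`G (x + t) - G x ≤ 4 ^ (d ^ 2) (G x - G (x - t))`.
Proof. Let `H = G - G (x - t)`, `B = G x - G (x - t) ≥ 0`, `y_i = x - t + i t / d` for `i = 0, ..., 2 d`. For `i ≤ d`
`0 ≤ H y_i ≤ B`. The finite difference of order `d + 1` of a polynomial of degree at most `d` vanishes:
`∑_(j = 0)^(d + 1) (-1) ^ (d + 1 - j) C(d + 1, j) H (y_(i + j)) = 0` (Mathlib: `fwdDiff`, or Lagrange interpolation, or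
induction on `d`: `p (X + c) - p X` has smaller degree). So
`|H y_(i + d + 1)| ≤ (2 ^ (d + 1) - 1) max_(j ≤ d) |H y_(i + j)|`, and by induction
`|H y_i| ≤ (2 ^ (d + 1)) ^ (i - d) B` for `d ≤ i`, in particular
`H (x + t) = H y_(2 d) ≤ 2 ^ (d (d + 1)) B ≤ 4 ^ (d ^ 2) B` (`d (d + 1) ≤ 2 d ^ 2`). `G (x + t) - G x ≤ H (x + t)`.
`poly_inc'`: the mirror image: apply `poly_inc` to `- G (-X)` (`G.comp (-X)`, negated) at `- x`.
-/

set_option autoImplicit false

namespace Pool.Agent.Work.MP_e64a38_co.GG

theorem poly_inc (d : ℕ) (hd : 1 ≤ d) (G : Polynomial ℝ) (hG : G.natDegree ≤ d) (x t : ℝ)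
    (ht : 0 < t) (hm : ∀ y z, x - t ≤ y → y ≤ z → z ≤ x + t → G.eval y ≤ G.eval z) :
    G.eval (x + t) - G.eval x ≤ 4 ^ (d ^ 2) * (G.eval x - G.eval (x - t)) := by
  have hd0 : (0 : ℝ) < d := by exact_mod_cast hd
  set B := G.eval x - G.eval (x - t) with hB
  have hB0 : 0 ≤ B := by
    have h := hm (x - t) x le_rfl (by linarith) (by linarith)
    linarith
  let P : Polynomial ℝ := (G - Polynomial.C (G.eval (x - t))).comp
    (Polynomial.C (t / d) * Polynomial.X + Polynomial.C (x - t))
  have hPe : ∀ u : ℝ, P.eval u = G.eval (x - t + u * (t / d)) - G.eval (x - t) := by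
    intro u
    show ((G - Polynomial.C (G.eval (x - t))).comp
      (Polynomial.C (t / d) * Polynomial.X + Polynomial.C (x - t))).eval u = _
    rw [Polynomial.eval_comp]
    simp only [Polynomial.eval_sub, Polynomial.eval_add, Polynomial.eval_mul, Polynomial.eval_C,
      Polynomial.eval_X]
    congr 2
    ring
  have hPd : P.natDegree < d + 1 := by
    have h1 : P.natDegree ≤ (G - Polynomial.C (G.eval (x - t))).natDegree *
        (Polynomial.C (t / d) * Polynomial.X + Polynomial.C (x - t)).natDegree :=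
      Polynomial.natDegree_comp_le
    have h2 : (G - Polynomial.C (G.eval (x - t))).natDegree ≤ d := by
      refine le_trans (Polynomial.natDegree_sub_le _ _) ?_
      rw [Polynomial.natDegree_C]
      simpa using hG
    have h3 : (Polynomial.C (t / (d : ℝ)) * Polynomial.X + Polynomial.C (x - t)).natDegree ≤ 1 := by
      refine le_trans (Polynomial.natDegree_add_le _ _) ?_
      rw [Polynomial.natDegree_C]
      refine max_le ?_ (by norm_num)
      refine le_trans (Polynomial.natDegree_C_mul_le _ _) ?_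
      rw [Polynomial.natDegree_X]
    have h4 := Nat.mul_le_mul h2 h3
    omega
  have hrec : ∀ i : ℕ, ∑ k ∈ Finset.range (d + 1 + 1),
      ((-1 : ℝ) ^ (d + 1 - k) * ((d + 1).choose k : ℝ)) * P.eval ((i + k : ℕ) : ℝ) = 0 := by
    intro i
    have h1 := congrFun (Polynomial.fwdDiff_iter_eq_zero_of_degree_lt hPd) (i : ℝ)
    rw [fwdDiff_iter_eq_sum_shift] at h1
    rw [Pi.zero_apply] at h1
    rw [← h1]
    refine Finset.sum_congr rfl fun k _ => ?_
    rw [zsmul_eq_mul, nsmul_eq_mul, mul_one]
    push_cast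
    ring
  have hbound : ∀ i : ℕ, |P.eval (i : ℝ)| ≤ ((2 : ℝ) ^ (d + 1)) ^ (i - d) * B := by
    intro i
    induction i using Nat.strong_induction_on with
    | _ i ih =>
      by_cases hid : i ≤ d
      · rw [Nat.sub_eq_zero_of_le hid, pow_zero, one_mul, hPe, hB]
        have h1 : (i : ℝ) * (t / d) ≤ t := by
          have h2 : (i : ℝ) ≤ d := by exact_mod_cast hid
          rw [mul_div_assoc', div_le_iff₀ hd0]
          nlinarith
        have h0 : 0 ≤ (i : ℝ) * (t / d) := by positivity
        have h3 := hm (x - t) (x - t + (i : ℝ) * (t / d)) le_rfl (by linarith) (by linarith)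
        have h4 := hm (x - t + (i : ℝ) * (t / d)) x (by linarith) (by linarith) (by linarith)
        rw [abs_of_nonneg (by linarith)]
        linarith
      · obtain ⟨m, rfl⟩ : ∃ m, i = m + (d + 1) := ⟨i - (d + 1), by omega⟩
        have h1 := hrec m
        rw [Finset.sum_range_succ, Nat.choose_self, Nat.sub_self, pow_zero] at h1
        have h2 : P.eval ((m + (d + 1) : ℕ) : ℝ) = - ∑ k ∈ Finset.range (d + 1),
            ((-1 : ℝ) ^ (d + 1 - k) * ((d + 1).choose k : ℝ)) * P.eval ((m + k : ℕ) : ℝ) := by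
          push_cast at h1 ⊢
          linarith
        rw [h2, abs_neg]
        refine le_trans (Finset.abs_sum_le_sum_abs _ _) ?_
        have h3 : ∀ k ∈ Finset.range (d + 1),
            |((-1 : ℝ) ^ (d + 1 - k) * ((d + 1).choose k : ℝ)) * P.eval ((m + k : ℕ) : ℝ)| ≤
              ((d + 1).choose k : ℝ) * (((2 : ℝ) ^ (d + 1)) ^ m * B) := by
          intro k hk
          rw [Finset.mem_range] at hk
          rw [abs_mul, abs_mul, abs_pow, abs_neg, abs_one, one_pow, one_mul,
            abs_of_nonneg (by positivity : (0 : ℝ) ≤ ((d + 1).choose k : ℝ))]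
          refine mul_le_mul_of_nonneg_left ?_ (by positivity)
          refine le_trans (ih (m + k) (by omega)) ?_
          refine mul_le_mul_of_nonneg_right ?_ hB0
          exact pow_le_pow_right₀ (one_le_pow₀ (by norm_num)) (by omega)
        refine le_trans (Finset.sum_le_sum h3) ?_
        rw [← Finset.sum_mul]
        have h4 : (∑ k ∈ Finset.range (d + 1), ((d + 1).choose k : ℝ)) ≤ (2 : ℝ) ^ (d + 1) := by
          have h5 := Nat.sum_range_choose (d + 1)
          rw [Finset.sum_range_succ] at h5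
          have h6 : ∑ k ∈ Finset.range (d + 1), (d + 1).choose k ≤ 2 ^ (d + 1) := by omega
          exact_mod_cast h6
        have h5 : m + (d + 1) - d = m + 1 := by omega
        rw [h5, pow_succ' _ m, mul_assoc]
        exact mul_le_mul_of_nonneg_right h4 (by positivity)
  have h1 := hbound (2 * d)
  have h2 : P.eval ((2 * d : ℕ) : ℝ) = G.eval (x + t) - G.eval (x - t) := by
    rw [hPe]
    congr 2
    push_cast
    field_simp
    ring
  rw [h2] at h1
  have h3 := hm (x - t) x le_rfl (by linarith) (by linarith)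
  have h4 : 2 * d - d = d := by omega
  rw [h4] at h1
  have h5 : ((2 : ℝ) ^ (d + 1)) ^ d ≤ 4 ^ (d ^ 2) := by
    have h6 : (4 : ℝ) = 2 ^ 2 := by norm_num
    rw [h6, ← pow_mul, ← pow_mul]
    exact pow_le_pow_right₀ (by norm_num) (by nlinarith)
  have h6 : ((2 : ℝ) ^ (d + 1)) ^ d * B ≤ 4 ^ (d ^ 2) * B := mul_le_mul_of_nonneg_right h5 hB0
  have h7 := le_abs_self (G.eval (x + t) - G.eval (x - t))
  linarith

theorem poly_inc' (d : ℕ) (hd : 1 ≤ d) (G : Polynomial ℝ) (hG : G.natDegree ≤ d) (x t : ℝ)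
    (ht : 0 < t) (hm : ∀ y z, x - t ≤ y → y ≤ z → z ≤ x + t → G.eval y ≤ G.eval z) :
    G.eval x - G.eval (x - t) ≤ 4 ^ (d ^ 2) * (G.eval (x + t) - G.eval x) := by
  have h := poly_inc d hd (-(G.comp (-Polynomial.X))) (by
      rw [Polynomial.natDegree_neg]
      refine le_trans Polynomial.natDegree_comp_le ?_
      rw [Polynomial.natDegree_neg, Polynomial.natDegree_X, mul_one]
      exact hG) (-x) t ht (by
      intro y z h1 h2 h3
      simp only [Polynomial.eval_neg, Polynomial.eval_comp, Polynomial.eval_X]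
      have h4 := hm (-z) (-y) (by linarith) (by linarith) (by linarith)
      linarith)
  simp only [Polynomial.eval_neg, Polynomial.eval_comp, Polynomial.eval_X] at h
  have e1 : -(-x + t) = x - t := by ring
  have e2 : -(-x - t) = x + t := by ring
  rw [e1, e2, neg_neg] at h
  linarith

end Pool.Agent.Work.MP_e64a38_co.GG
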