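import Pool.Agent.Work.MP_e64a38_co.GG.GD1
import Pool.Agent.Work.MP_e64a38_co.GG.Defs

/-!
# A convex polynomial function has quasisymmetric slope (size S-M)

`s` is the derivative of the polynomial `p` of degree at most `d`, `1 ≤ d`, monotone on `[α, β]`. The increments: `poly_inc`,
`poly_inc'` for `p.derivative` (degree at most `d - 1 ≤ d`). The supporting lines: by the mean value theorem
(`exists_hasDerivAt_eq_slope`, `Polynomial.hasDerivAt`) for `x < z` there is `c` between with
`p z - p x = p' c (z - x) ≥ p' x (z - x)`, and for `z < x` `p x - p z = p' c (x - z) ≤ p' x (x - z)`.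
-/

set_option autoImplicit false

namespace Pool.Agent.Work.MP_e64a38_co.GG

theorem poly_qsf (d : ℕ) (hd : 1 ≤ d) (p : Polynomial ℝ) (hp : p.natDegree ≤ d) (α β : ℝ)
    (hm : ∀ y z, α ≤ y → y ≤ z → z ≤ β → p.derivative.eval y ≤ p.derivative.eval z) :
    QSf (4 ^ (d ^ 2)) α β (fun x => p.eval x) (fun x => p.derivative.eval x) := by
  have hdeg : p.derivative.natDegree ≤ d :=
    (Polynomial.natDegree_derivative_le p).trans (by omega)
  refine ⟨?_, ?_⟩
  · intro x z hx1 hx2 hz1 hz2
    show p.eval x + p.derivative.eval x * (z - x) ≤ p.eval z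
    rcases lt_trichotomy x z with h | h | h
    · obtain ⟨c, hc, he⟩ := exists_hasDerivAt_eq_slope (fun y => p.eval y)
        (fun y => p.derivative.eval y) h p.continuous.continuousOn (fun y _ => p.hasDerivAt y)
      have h1 := hm x c hx1 hc.1.le (hc.2.le.trans hz2)
      have hpos : 0 < z - x := by linarith
      rw [eq_div_iff hpos.ne'] at he
      have h3 : p.derivative.eval x * (z - x) ≤ p.derivative.eval c * (z - x) :=
        mul_le_mul_of_nonneg_right h1 hpos.le
      linarith
    · subst h
      simp
    · obtain ⟨c, hc, he⟩ := exists_hasDerivAt_eq_slope (fun y => p.eval y)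
        (fun y => p.derivative.eval y) h p.continuous.continuousOn (fun y _ => p.hasDerivAt y)
      have h1 := hm c x (hz1.trans hc.1.le) hc.2.le hx2
      have hpos : 0 < x - z := by linarith
      rw [eq_div_iff hpos.ne'] at he
      have h3 : p.derivative.eval c * (x - z) ≤ p.derivative.eval x * (x - z) :=
        mul_le_mul_of_nonneg_right h1 hpos.le
      have h4 : p.derivative.eval x * (z - x) = - (p.derivative.eval x * (x - z)) := by ring
      linarith
  · intro x t ht h1 h2
    have hm' : ∀ y z, x - t ≤ y → y ≤ z → z ≤ x + t →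
        p.derivative.eval y ≤ p.derivative.eval z :=
      fun y z hy hyz hz => hm y z (h1.trans hy) hyz (hz.trans h2)
    exact ⟨poly_inc d hd _ hdeg x t ht hm', poly_inc' d hd _ hdeg x t ht hm'⟩

end Pool.Agent.Work.MP_e64a38_co.GG
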